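import Pool.Agent.Helper16.Abund.Basic
import Pool.Agent.Helper16.Abund.Trace2

/-! The complex structure of a space which is locally homeomorphic over a complex manifold. -/

open scoped Manifold ContDiff Topology
open Pool.Agent.Helper16.Abund

namespace Pool.Agent.Helper96.Kod

section

variable {k : ℕ} {C F : Type*} [TopologicalSpace C] [TopologicalSpace F]
  [ChartedSpace (Fin k → ℂ) F] {q : C → F}

/-- The chart of `C` at `c`. -/
noncomputable def lhChart (hq : IsLocalHomeomorph q) (c : C) :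
    OpenPartialHomeomorph C (Fin k → ℂ) :=
  (hq c).choose ≫ₕ chartAt (Fin k → ℂ) (q c)

theorem lhChart_spec (hq : IsLocalHomeomorph q) (c : C) :
    c ∈ (hq c).choose.source ∧ q = (hq c).choose := (hq c).choose_spec

theorem mem_lhChart_source (hq : IsLocalHomeomorph q) (c : C) :
    c ∈ (lhChart (k := k) hq c).source := by
  rw [lhChart, OpenPartialHomeomorph.trans_source]
  refine ⟨(lhChart_spec hq c).1, ?_⟩
  rw [Set.mem_preimage, ← (lhChart_spec hq c).2]
  exact mem_chart_source _ _

theorem lhChart_apply (hq : IsLocalHomeomorph q) (c c' : C) :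
    lhChart (k := k) hq c c' = chartAt (Fin k → ℂ) (q c) (q c') := by
  rw [lhChart, OpenPartialHomeomorph.coe_trans, Function.comp_apply, ← (lhChart_spec hq c).2]

theorem lhChart_target (hq : IsLocalHomeomorph q) (c : C) {v : Fin k → ℂ}
    (hv : v ∈ (lhChart (k := k) hq c).target) : v ∈ (chartAt (Fin k → ℂ) (q c)).target := by
  rw [lhChart, OpenPartialHomeomorph.trans_target] at hv
  exact hv.1

theorem q_lhChart_symm (hq : IsLocalHomeomorph q) (c : C) {v : Fin k → ℂ}
    (hv : v ∈ (lhChart (k := k) hq c).target) :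
    q ((lhChart (k := k) hq c).symm v) = (chartAt (Fin k → ℂ) (q c)).symm v := by
  have h1 := (lhChart (k := k) hq c).right_inv hv
  rw [lhChart_apply] at h1
  have h2 : q ((lhChart (k := k) hq c).symm v) ∈ (chartAt (Fin k → ℂ) (q c)).source := by
    have h3 := (lhChart (k := k) hq c).map_target hv
    rw [lhChart, OpenPartialHomeomorph.trans_source] at h3
    have h4 := h3.2
    rw [Set.mem_preimage, ← (lhChart_spec hq c).2] at h4
    exact h4
  rw [← (chartAt (Fin k → ℂ) (q c)).left_inv h2, h1]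

/-- The charted space structure. -/
noncomputable abbrev lhCharted (hq : IsLocalHomeomorph q) : ChartedSpace (Fin k → ℂ) C where
  atlas := Set.range (lhChart (k := k) hq)
  chartAt := lhChart (k := k) hq
  mem_chart_source := mem_lhChart_source hq
  chart_mem_atlas c := ⟨c, rfl⟩

theorem lhManifold [IsManifold 𝓘(ℂ, Fin k → ℂ) ω F] (hq : IsLocalHomeomorph q) :
    @IsManifold ℂ _ (Fin k → ℂ) _ _ (Fin k → ℂ) _ 𝓘(ℂ, Fin k → ℂ) ω C _
      (lhCharted (k := k) hq) := by
  let _ := lhCharted (k := k) hq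
  refine isManifold_of_contDiffOn _ _ _ ?_
  rintro _ _ ⟨c, rfl⟩ ⟨c', rfl⟩
  have h1 := HasGroupoid.compatible (G := contDiffGroupoid ω 𝓘(ℂ, Fin k → ℂ))
    (chart_mem_atlas (Fin k → ℂ) (q c)) (chart_mem_atlas (Fin k → ℂ) (q c'))
  rw [contDiffGroupoid, mem_groupoid_of_pregroupoid] at h1
  have h3 := h1.1
  simp only [contDiffPregroupoid] at h3
  have hsub : ∀ v ∈ ((lhChart (k := k) hq c).symm ≫ₕ lhChart (k := k) hq c').source,
      v ∈ ((chartAt (Fin k → ℂ) (q c)).symm ≫ₕ chartAt (Fin k → ℂ) (q c')).source ∧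
      ((lhChart (k := k) hq c).symm ≫ₕ lhChart (k := k) hq c') v =
      ((chartAt (Fin k → ℂ) (q c)).symm ≫ₕ chartAt (Fin k → ℂ) (q c')) v := by
    intro v hv
    rw [OpenPartialHomeomorph.trans_source] at hv
    have hv1 : v ∈ (lhChart (k := k) hq c).target := hv.1
    have hv2 : (lhChart (k := k) hq c).symm v ∈ (lhChart (k := k) hq c').source := hv.2
    have hv3 := hv2
    rw [lhChart.eq_1 hq c', OpenPartialHomeomorph.trans_source] at hv3
    have hv4 := hv3.2
    rw [Set.mem_preimage, ← (lhChart_spec hq c').2, q_lhChart_symm hq c hv1] at hv4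
    refine ⟨?_, ?_⟩
    · rw [OpenPartialHomeomorph.trans_source]
      exact ⟨lhChart_target hq c hv1, hv4⟩
    · rw [OpenPartialHomeomorph.coe_trans, OpenPartialHomeomorph.coe_trans, Function.comp_apply,
        Function.comp_apply, lhChart_apply, q_lhChart_symm hq c hv1]
  refine ContDiffOn.congr (h3.mono ?_) ?_
  · intro v hv
    simp only [modelWithCornersSelf_coe, modelWithCornersSelf_coe_symm, Set.preimage_id_eq, id,
      Set.range_id, Set.inter_univ] at hv ⊢
    exact (hsub v hv).1
  · intro v hv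
    simp only [modelWithCornersSelf_coe, modelWithCornersSelf_coe_symm, Set.preimage_id_eq, id,
      Set.range_id, Set.inter_univ, Function.comp_apply] at hv ⊢
    exact (hsub v hv).2

/-- The projection is holomorphic. -/
theorem lh_mdifferentiable [IsManifold 𝓘(ℂ, Fin k → ℂ) ω F] (hq : IsLocalHomeomorph q) :
    letI := lhCharted (k := k) hq
    MDifferentiable 𝓘(ℂ, Fin k → ℂ) 𝓘(ℂ, Fin k → ℂ) q := by
  let _ := lhCharted (k := k) hq
  have := lhManifold (k := k) hq
  intro c
  have h1 : MDifferentiableAt 𝓘(ℂ, Fin k → ℂ) 𝓘(ℂ, Fin k → ℂ) (chartAt (Fin k → ℂ) c) c :=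
    (mdiff_chart c).mdifferentiableAt ((chartAt (Fin k → ℂ) c).open_source.mem_nhds
      (mem_chart_source _ c))
  have h0 : chartAt (Fin k → ℂ) c c = chartAt (Fin k → ℂ) (q c) (q c) := lhChart_apply hq c c
  have h2 : MDifferentiableAt 𝓘(ℂ, Fin k → ℂ) 𝓘(ℂ, Fin k → ℂ)
      (chartAt (Fin k → ℂ) (q c)).symm (chartAt (Fin k → ℂ) c c) := by
    rw [h0]
    exact (mdiff_chart_symm (q c)).mdifferentiableAt
      ((chartAt (Fin k → ℂ) (q c)).open_target.mem_nhds (mem_chart_target _ _))
  refine (h2.comp c h1).congr_of_eventuallyEq ?_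
  filter_upwards [(lhChart (k := k) hq c).open_source.mem_nhds (mem_lhChart_source hq c)] with c' hc'
  have h3 : q c' = (chartAt (Fin k → ℂ) (q c)).symm (chartAt (Fin k → ℂ) (q c) (q c')) := by
    rw [(chartAt (Fin k → ℂ) (q c)).left_inv]
    rw [lhChart, OpenPartialHomeomorph.trans_source] at hc'
    have h4 := hc'.2
    rw [Set.mem_preimage, ← (lhChart_spec hq c).2] at h4
    exact h4
  rw [h3, ← lhChart_apply hq c c']
  rfl

end

end Pool.Agent.Helper96.Kod
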