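import Pool.Agent.Helper96.Kod.Iit5
import Pool.Agent.Helper96.Kod.CovMan

/-! The complex structure of the components of the fibre product. -/

open scoped Manifold ContDiff ENNReal Topology
open MeasureTheory Metric Filter
open Pool.Agent.Helper16.Abund

namespace Pool.Agent.Helper96.Kod

universe u v

section

variable {n k : ℕ} {M Y F : Type*} [TopologicalSpace M] [ChartedSpace (Fin n → ℂ) M]
    [TopologicalSpace Y] [ChartedSpace (Fin n → ℂ) Y] [TopologicalSpace F]
    [ChartedSpace (Fin k → ℂ) F] {p : Y → M} {φ : F → M} {x₁ : F} {N : Set (Fin k → ℂ)}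
    {J : (Fin k → ℂ) → ℂ} {ς : (p ⁻¹' {φ x₁}) → (Fin k → ℂ) → Y}

/-- The projection to `F` of a sheet contained in `C`. -/
noncomputable def LocData.sheetPH (L : LocData n k p φ x₁ N J ς) (hp : IsLocalHomeomorph p)
    {C : Set (FP φ p)} (s : p ⁻¹' {φ x₁}) (hs : shS x₁ N ς s ⊆ C) (c₀ : C) :
    OpenPartialHomeomorph C F := by
  classical
  exact
  { toFun := fun c => c.1.1.1
    invFun := fun x => if h : x ∈ bS x₁ N then ⟨L.par s ⟨_, h.2⟩, hs (L.par_mem s _)⟩ else c₀
    source := {c | c.1 ∈ shS x₁ N ς s}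
    target := bS x₁ N
    map_source' := fun c hc => ⟨hc.1, hc.2.1⟩
    map_target' := by
      intro x hx
      simp only [dif_pos hx, Set.mem_ofPred_eq]
      exact L.par_mem s _
    left_inv' := by
      intro c hc
      have hx : c.1.1.1 ∈ bS x₁ N := ⟨hc.1, hc.2.1⟩
      simp only [dif_pos hx]
      apply Subtype.ext
      apply Subtype.ext
      apply Prod.ext
      · exact (chartAt (Fin k → ℂ) x₁).left_inv hc.1
      · exact hc.2.2.symm
    right_inv' := by
      intro x hx
      simp only [dif_pos hx]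
      exact (chartAt (Fin k → ℂ) x₁).left_inv hx.1
    open_source := (L.isOpen_shS hp s).preimage continuous_subtype_val
    open_target := L.isOpen_bS
    continuousOn_toFun := (continuous_fst.comp
      (continuous_subtype_val.comp continuous_subtype_val)).continuousOn
    continuousOn_invFun := by
      rw [continuousOn_iff_continuous_domRestrict]
      have h1 : Continuous fun x : bS x₁ N => (⟨chartAt (Fin k → ℂ) x₁ x, x.2.2⟩ : N) := by
        refine Continuous.subtype_mk ?_ _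
        exact (chartAt (Fin k → ℂ) x₁).continuousOn.comp_continuous continuous_subtype_val
          fun x => x.2.1
      have h2 : Continuous fun x : bS x₁ N =>
          (⟨L.par s ⟨chartAt (Fin k → ℂ) x₁ x, x.2.2⟩, hs (L.par_mem s _)⟩ : C) :=
        ((L.continuous_par s).comp h1).subtype_mk _
      refine h2.congr fun x => ?_
      simp only [Set.domRestrict_apply, dif_pos x.2] }

end

section

variable {n k : ℕ} {M : Type v} {Y F : Type u} [TopologicalSpace M]
    [ChartedSpace (Fin n → ℂ) M] [IsManifold 𝓘(ℂ, Fin n → ℂ) ω M] [TopologicalSpace Y]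
    [ChartedSpace (Fin n → ℂ) Y] [TopologicalSpace F] [ChartedSpace (Fin k → ℂ) F]
    [IsManifold 𝓘(ℂ, Fin k → ℂ) ω F] {p : Y → M} {φ : F → M}

/-- The projection of a component to `F`. -/
def prC (z₀ : FP φ p) (c : connectedComponent z₀) : F := c.1.1.1

/-- The projection of a component to `Y`. -/
def prY (z₀ : FP φ p) (c : connectedComponent z₀) : Y := c.1.1.2

theorem continuous_prY (z₀ : FP φ p) : Continuous (prY z₀) :=
  continuous_snd.comp (continuous_subtype_val.comp continuous_subtype_val)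

theorem isLocalHomeomorph_prC (hcov : IsCoveringMap p)
    (hloc : IsLocalDiffeomorph 𝓘(ℂ, Fin n → ℂ) 𝓘(ℂ, Fin n → ℂ) ω p)
    (hφ : MDifferentiable 𝓘(ℂ, Fin k → ℂ) 𝓘(ℂ, Fin n → ℂ) φ) (z₀ : FP φ p) :
    IsLocalHomeomorph (prC z₀) := by
  intro c
  obtain ⟨N, J, ς, L⟩ := exists_locData (k := k) hcov hloc hφ c.1.1.1
  obtain ⟨s, hs⟩ := L.exists_sheet (z := c.1) L.mem_bS
  exact ⟨L.sheetPH hcov.isLocalHomeomorph s (L.shS_subset hs c.2) c, hs, rfl⟩

theorem holo_prY (hcov : IsCoveringMap p)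
    (hloc : IsLocalDiffeomorph 𝓘(ℂ, Fin n → ℂ) 𝓘(ℂ, Fin n → ℂ) ω p)
    (hφ : MDifferentiable 𝓘(ℂ, Fin k → ℂ) 𝓘(ℂ, Fin n → ℂ) φ) (z₀ : FP φ p) :
    letI := lhCharted (k := k) (isLocalHomeomorph_prC hcov hloc hφ z₀)
    MDifferentiable 𝓘(ℂ, Fin k → ℂ) 𝓘(ℂ, Fin n → ℂ) (prY z₀) := by
  let _ := lhCharted (k := k) (isLocalHomeomorph_prC hcov hloc hφ z₀)
  intro c
  have hp : ∀ c, p (prY z₀ c) = φ (prC z₀ c) := fun c => c.1.2.symm
  have h1 := (hloc (prY z₀ c)).localInverse_mdifferentiableAt (by simp)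
  rw [hp c] at h1
  have h2 : MDifferentiableAt 𝓘(ℂ, Fin k → ℂ) 𝓘(ℂ, Fin n → ℂ) (φ ∘ prC z₀) c :=
    (hφ _).comp c (lh_mdifferentiable (isLocalHomeomorph_prC hcov hloc hφ z₀) c)
  refine (MDifferentiableAt.comp c h1 h2).congr_of_eventuallyEq ?_
  have h3 : ∀ᶠ c' in 𝓝 c, prY z₀ c' ∈ (hloc (prY z₀ c)).localInverse.target :=
    (continuous_prY z₀).continuousAt.preimage_mem_nhds
      ((hloc (prY z₀ c)).localInverse.open_target.mem_nhds
        (hloc (prY z₀ c)).localInverse_mem_target)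
  filter_upwards [h3] with c' hc'
  have h4 := (hloc (prY z₀ c)).localInverse_left_inv hc'
  rw [hp c'] at h4
  exact h4.symm

theorem t2Space_component [T2Space M] [T2Space F] (hcov : IsCoveringMap p) (z₀ : FP φ p) :
    T2Space (connectedComponent z₀) := by
  have : T2Space Y := by
    refine ⟨fun y y' hne => ?_⟩
    by_cases h : p y = p y'
    · exact hcov.isSeparatedMap y y' h hne
    · obtain ⟨U, V, hU, hV, hy, hy', hd⟩ := t2_separation h
      exact ⟨p ⁻¹' U, p ⁻¹' V, hU.preimage hcov.continuous, hV.preimage hcov.continuous, hy, hy',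
        hd.preimage p⟩
  infer_instance

/-- Separation of points. -/
theorem const_of_noCompactMaps [T2Space M] [T2Space F] [PreconnectedSpace F]
    (hcov : IsCoveringMap p)
    (hloc : IsLocalDiffeomorph 𝓘(ℂ, Fin n → ℂ) 𝓘(ℂ, Fin n → ℂ) ω p)
    (hφ : MDifferentiable 𝓘(ℂ, Fin k → ℂ) 𝓘(ℂ, Fin n → ℂ) φ) {z₀ : FP φ p}
    (hC : IsCompact (connectedComponent z₀)) (hno : NoCompactMaps n Y) (x x' : F) :
    φ x = φ x' := by
  let _ := lhCharted (k := k) (isLocalHomeomorph_prC hcov hloc hφ z₀)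
  have hman := lhManifold (k := k) (isLocalHomeomorph_prC hcov hloc hφ z₀)
  have ht2 : T2Space (connectedComponent z₀) := t2Space_component hcov z₀
  have hcs : CompactSpace (connectedComponent z₀) := isCompact_iff_compactSpace.1 hC
  have hcn : ConnectedSpace (connectedComponent z₀) :=
    isConnected_iff_connectedSpace.1 isConnected_connectedComponent
  have hconst := hno k (connectedComponent z₀) (prY z₀) (holo_prY hcov hloc hφ z₀)
  have h1 : ∀ z ∈ connectedComponent z₀, z.1.2 = z₀.1.2 := by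
    intro z hz
    exact hconst ⟨z, hz⟩ ⟨z₀, mem_connectedComponent⟩
  have h2 : ∀ x, φ x = p z₀.1.2 := by
    intro x
    obtain ⟨z, hz, rfl⟩ := surj_fst hcov hloc hφ z₀ x
    rw [← h1 z hz]
    exact z.2
  rw [h2 x, h2 x']

/-- Holomorphic separability excludes compact submanifolds. -/
theorem noCompactMaps_of_separable {n : ℕ} {Y : Type u} [TopologicalSpace Y]
    [ChartedSpace (Fin n → ℂ) Y] (hsep : HolSeparable n Y) : NoCompactMaps n Y := by
  intro k C _ _ _ _ _ _ ψ hψ c c'
  by_contra hne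
  obtain ⟨f, hf, hfne⟩ := hsep _ _ hne
  apply hfne
  have h1 : MDifferentiable 𝓘(ℂ, Fin k → ℂ) 𝓘(ℂ, ℂ) (f ∘ ψ) := hf.comp hψ
  exact h1.apply_eq_of_compactSpace c c'

end

end Pool.Agent.Helper96.Kod
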