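import Pool.Agent.Helper96.Kod.Main
import Pool.Agent.Helper10.Abund.OpenSub
import Pool.Agent.Helper8.Abund.Fibre
import Pool.Agent.Helper22.Kod.K1
import Pool.Agent.Helper50.Kod.K2
import Pool.Agent.Helper40.Kod.K3
import Pool.Agent.Helper36.Kod.K5
import Pool.Agent.Helper36.Kod.K6

/-! Corollaries: bounded holomorphic functions, bounded domains. -/

open scoped Manifold ContDiff ENNReal Topology
open MeasureTheory Metric
open Pool.Agent.Helper16.Abund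

namespace Pool.Agent.Helper96.Kod

universe u v

/-- **Main theorem.** -/
theorem kodaira_of_Lq {n r : ℕ} {M : Type v} {Y : Type u} [TopologicalSpace M]
    [ChartedSpace (Fin n → ℂ) M] [IsManifold 𝓘(ℂ, Fin n → ℂ) ω M] [TopologicalSpace Y]
    [ChartedSpace (Fin n → ℂ) Y] {p : Y → M} (hcov : IsCoveringMap p)
    (hloc : IsLocalDiffeomorph 𝓘(ℂ, Fin n → ℂ) 𝓘(ℂ, Fin n → ℂ) ω p) {m : ℕ} (hm : 1 ≤ m)
    {q : ℝ} (hq : 0 < q) {η : Fin (r + 1) → Y → ℂ} (hη : ∀ i, IsPluriForm n Y m (η i))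
    (hLq : ∀ i, FibreLq n p m q (η i)) (hind : ∃ y, IndepAt n r η y) : KodairaGE n r M :=
  kodairaGE Helper22.Kod.stmtK1 Helper50.Kod.stmtK2 stmtK3 _root_.Helper36.Kod.stmtK5
    _root_.Helper36.Kod.stmtK6 hcov hloc hm hq hη hLq hind

/-- holomorphic functions times forms -/
theorem isPluriForm_fun_mul {n : ℕ} {Y : Type*} [TopologicalSpace Y] [ChartedSpace (Fin n → ℂ) Y]
    {m : ℕ} {f c : Y → ℂ} (hf : MDifferentiable 𝓘(ℂ, Fin n → ℂ) 𝓘(ℂ, ℂ) f)
    (hc : IsPluriForm n Y m c) : IsPluriForm n Y m (fun y => f y * c y) := by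
  intro V ψ hV hψ
  have h1 : DifferentiableOn ℂ (fun z => f (ψ z)) V := by
    intro z hz
    have h2 : MDifferentiableAt 𝓘(ℂ, Fin n → ℂ) 𝓘(ℂ, ℂ) (f ∘ ψ) z :=
      (hf (ψ z)).comp z (hψ.mdifferentiableAt (hV.mem_nhds hz))
    exact h2.differentiableAt.differentiableWithinAt
  refine (h1.mul (hc V ψ hV hψ)).congr fun z _ => ?_
  simp only [Pi.mul_apply]
  ring

theorem fibreLq_mul {n : ℕ} {X Y : Type*} [TopologicalSpace X] [ChartedSpace (Fin n → ℂ) X]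
    [TopologicalSpace Y] [ChartedSpace (Fin n → ℂ) Y] {p : Y → X} {m : ℕ} {q : ℝ} (hq : 0 < q)
    {f η : Y → ℂ} {C : ℝ} (hf : ∀ y, ‖f y‖ ≤ C) (hLq : FibreLq n p m q η) :
    FibreLq n p m q (fun y => f y * η y) := by
  intro x₀
  obtain ⟨r, hr, hsub, hint⟩ := hLq x₀
  refine ⟨r, hr, hsub, ?_⟩
  have hpt : ∀ z, ∑' y : p ⁻¹' {(chartAt (Fin n → ℂ) x₀).symm z},
        ENNReal.ofReal (‖f y * η y * (jac n (chartAt (Fin n → ℂ) x₀).symm z / jac n p y.1) ^ m‖ ^ q)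
      ≤ ENNReal.ofReal (max C 0 ^ q) * ∑' y : p ⁻¹' {(chartAt (Fin n → ℂ) x₀).symm z},
        ENNReal.ofReal (‖η y * (jac n (chartAt (Fin n → ℂ) x₀).symm z / jac n p y.1) ^ m‖ ^ q) := by
    intro z
    rw [← ENNReal.tsum_mul_left]
    refine ENNReal.tsum_le_tsum fun y => ?_
    rw [← ENNReal.ofReal_mul (by positivity)]
    apply ENNReal.ofReal_le_ofReal
    rw [mul_assoc, norm_mul, Real.mul_rpow (norm_nonneg _) (norm_nonneg _)]
    apply mul_le_mul_of_nonneg_right _ (by positivity)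
    exact Real.rpow_le_rpow (norm_nonneg _) ((hf y).trans (le_max_left _ _)) hq.le
  calc _ ≤ ∫⁻ z in ball (chartAt (Fin n → ℂ) x₀ x₀) r, ENNReal.ofReal (max C 0 ^ q) *
        ∑' y : p ⁻¹' {(chartAt (Fin n → ℂ) x₀).symm z},
        ENNReal.ofReal (‖η y * (jac n (chartAt (Fin n → ℂ) x₀).symm z / jac n p y.1) ^ m‖ ^ q) :=
        lintegral_mono fun z => hpt z
    _ < ⊤ := by
        rw [lintegral_const_mul' _ _ ENNReal.ofReal_ne_top]
        exact ENNReal.mul_lt_top ENNReal.ofReal_lt_top hint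

/-- Bounded holomorphic functions and one `L^q` form. -/
theorem kodaira_of_bounded {n r : ℕ} {M : Type v} {Y : Type u} [TopologicalSpace M]
    [ChartedSpace (Fin n → ℂ) M] [IsManifold 𝓘(ℂ, Fin n → ℂ) ω M] [TopologicalSpace Y]
    [ChartedSpace (Fin n → ℂ) Y] [IsManifold 𝓘(ℂ, Fin n → ℂ) ω Y] {p : Y → M}
    (hcov : IsCoveringMap p)
    (hloc : IsLocalDiffeomorph 𝓘(ℂ, Fin n → ℂ) 𝓘(ℂ, Fin n → ℂ) ω p) {m : ℕ} (hm : 1 ≤ m)
    {q : ℝ} (hq : 0 < q) {η : Y → ℂ} (hη : IsPluriForm n Y m η) (hLq : FibreLq n p m q η)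
    {f : Y → Fin r → ℂ} (hf : MDifferentiable 𝓘(ℂ, Fin n → ℂ) 𝓘(ℂ, Fin r → ℂ) f) {C : ℝ}
    (hfb : ∀ y, ‖f y‖ ≤ C) {y₀ : Y} (hy₀ : η y₀ ≠ 0)
    (hfs : Function.Surjective (mfderiv 𝓘(ℂ, Fin n → ℂ) 𝓘(ℂ, Fin r → ℂ) f y₀)) :
    KodairaGE n r M := by
  have hfi : ∀ i, MDifferentiable 𝓘(ℂ, Fin n → ℂ) 𝓘(ℂ, ℂ) (fun y => f y i) := by
    intro i y
    have h1 : MDifferentiableAt 𝓘(ℂ, Fin r → ℂ) 𝓘(ℂ, ℂ) (fun v : Fin r → ℂ => v i) (f y) :=
      (differentiableAt_apply i (f y)).mdifferentiableAt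
    exact h1.comp y (hf y)
  refine kodaira_of_Lq hcov hloc hm hq (η := Fin.cons η fun i y => f y i * η y) (fun i => ?_)
    (fun i => ?_) ⟨y₀, ?_, ?_⟩
  · refine Fin.cases ?_ (fun i => ?_) i
    · exact hη
    · exact isPluriForm_fun_mul (hfi i) hη
  · refine Fin.cases ?_ (fun i => ?_) i
    · exact hLq
    · exact fibreLq_mul hq (fun y => (norm_le_pi_norm (f y) i).trans (hfb y)) hLq
  · exact hy₀
  · have hev : (fun y (i : Fin r) => (Fin.cons η (fun i y => f y i * η y) : Fin (r + 1) → Y → ℂ)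
        i.succ y / (Fin.cons η (fun i y => f y i * η y) : Fin (r + 1) → Y → ℂ) 0 y)
        =ᶠ[𝓝 y₀] f := by
      filter_upwards [hη.isOpen_ne_zero.mem_nhds hy₀] with y hy
      funext i
      simp only [Fin.cons_succ, Fin.cons_zero]
      exact mul_div_cancel_right₀ _ hy
    change Function.Surjective (mfderiv 𝓘(ℂ, Fin n → ℂ) 𝓘(ℂ, Fin r → ℂ)
      (fun y (i : Fin r) => (Fin.cons η (fun i y => f y i * η y) : Fin (r + 1) → Y → ℂ)
        i.succ y / (Fin.cons η (fun i y => f y i * η y) : Fin (r + 1) → Y → ℂ) 0 y) y₀)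
    rw [hev.mfderiv_eq]
    exact hfs

/-- The form `dz` on a bounded domain has finite mass. -/
theorem finiteMass_one {n : ℕ} (W : TopologicalSpace.Opens (Fin n → ℂ))
    (hW : volume (W : Set (Fin n → ℂ)) < ⊤) : FiniteMass n 1 (fun _ : W => (1 : ℂ)) := by
  classical
  refine ⟨(volume (W : Set (Fin n → ℂ))).toReal, ?_⟩
  intro N V ψ hV hψ hinj hdisj
  have hψa : ∀ i, ∀ z ∈ V i, MDifferentiableAt 𝓘(ℂ, Fin n → ℂ) 𝓘(ℂ, Fin n → ℂ) (ψ i) z :=
    fun i z hz => (hψ i z hz).mdifferentiableAt ((hV i).mem_nhds hz)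
  set h : Fin N → (Fin n → ℂ) → (Fin n → ℂ) := fun i => Subtype.val ∘ ψ i with hh
  have hha : ∀ i, ∀ z ∈ V i, MDifferentiableAt 𝓘(ℂ, Fin n → ℂ) 𝓘(ℂ, Fin n → ℂ) (h i) z :=
    fun i z hz => (Pool.Agent.Helper10.Abund.mdifferentiable_val W (ψ i z)).comp z (hψa i z hz)
  have hhd : ∀ i, DifferentiableOn ℂ (h i) (V i) := fun i z hz =>
    (mdifferentiableAt_iff_differentiableAt.mp (hha i z hz)).differentiableWithinAt
  have hjac : ∀ i, ∀ z ∈ V i, jac n (ψ i) z = (fderiv ℂ (h i) z).det := by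
    intro i z hz
    rw [← jac_eq_fderiv, hh]
    simp only
    rw [jac_comp (Pool.Agent.Helper10.Abund.mdifferentiable_val W (ψ i z)) (hψa i z hz),
      Pool.Agent.Helper10.Abund.jac_val, one_mul]
  have key := Helper36.Abund.lintegral_comp_le (N := 1) (A := V) (B := (W : Set (Fin n → ℂ)))
    (G := fun _ => 1) (fun i => (hV i).measurableSet) hV (fun i => subset_rfl) hhd ?_
    W.2.measurableSet (fun i z hz => (ψ i z).2) measurable_const
  · have h1 : ∑ i, ∫⁻ z in V i, ENNReal.ofReal (‖(1 : ℂ) * jac n (ψ i) z ^ 1‖ ^ (2 / ((1 : ℕ) : ℝ)))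
        = ∑ i, ∫⁻ z in V i, 1 * ENNReal.ofReal (‖(fderiv ℂ (h i) z).det‖ ^ 2) := by
      refine Finset.sum_congr rfl fun i _ => ?_
      refine setLIntegral_congr_fun (hV i).measurableSet fun z hz => ?_
      rw [hjac i z hz, one_mul, pow_one, Nat.cast_one, div_one, Real.rpow_two, one_mul]
    rw [h1, ENNReal.ofReal_toReal hW.ne]
    refine key.trans ?_
    simp
  · intro w
    refine (Set.encard_le_one_iff.2 ?_)
    rintro ⟨i, z⟩ ⟨j, z'⟩ ⟨hz, hw⟩ ⟨hz', hw'⟩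
    have hzz : ψ i z = ψ j z' := Subtype.ext (hw.trans hw'.symm)
    have hij : i = j := by
      by_contra hne
      exact Set.disjoint_left.mp (hdisj hne) ⟨z, hz, rfl⟩ ⟨z', hz', hzz.symm⟩
    subst hij
    have h2 : z = z' := hinj i hz hz' hzz
    rw [h2]

/-- Manifolds covered by a nonempty bounded domain. -/
theorem kodaira_of_domain {n : ℕ} {M : Type v} [TopologicalSpace M]
    [ChartedSpace (Fin n → ℂ) M] [IsManifold 𝓘(ℂ, Fin n → ℂ) ω M]
    (W : TopologicalSpace.Opens (Fin n → ℂ)) (hW : Bornology.IsBounded (W : Set (Fin n → ℂ)))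
    (hne : (W : Set (Fin n → ℂ)).Nonempty) {p : W → M} (hcov : IsCoveringMap p)
    (hloc : IsLocalDiffeomorph 𝓘(ℂ, Fin n → ℂ) 𝓘(ℂ, Fin n → ℂ) ω p) : KodairaGE n n M := by
  obtain ⟨C, hC⟩ := hW.exists_norm_le
  obtain ⟨w, hw⟩ := hne
  have h1 : IsPluriForm n W 1 (fun _ => (1 : ℂ)) :=
    Pool.Agent.Helper10.Abund.isPluriForm_restrict W (f := fun _ => 1) (differentiableOn_const 1)
  have h2 := fibreLq_of_finiteMass hcov hloc le_rfl h1 (finiteMass_one W hW.measure_lt_top)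
  refine kodaira_of_bounded hcov hloc le_rfl (by norm_num) h1 h2
    (f := (Subtype.val : W → (Fin n → ℂ)))
    (Pool.Agent.Helper10.Abund.mdifferentiable_val W) (fun y => hC y.1 y.2) (y₀ := ⟨w, hw⟩)
    one_ne_zero ?_
  rw [(Pool.Agent.Helper10.Abund.hasMFDerivAt_val W ⟨w, hw⟩).mfderiv]
  exact Function.surjective_id

end Pool.Agent.Helper96.Kod
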