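import Pool.Agent.Helper96.Kod.Goals

/-! The core of the Kodaira dimension theorem, in local coordinates. -/

open scoped Topology
open Filter

namespace Pool.Agent.Helper96.Kod

universe u v

/-- `∑ w_i z_i` -/
def lin {N : ℕ} (w z : Fin N → ℂ) : ℂ := ∑ i, w i * z i

theorem lin_smul {N : ℕ} (w z : Fin N → ℂ) (c : ℂ) : lin w (c • z) = c * lin w z := by
  simp only [lin, Pi.smul_apply, smul_eq_mul, Finset.mul_sum]
  exact Finset.sum_congr rfl fun i _ => by ring

theorem lin_sub {N : ℕ} (w z z' : Fin N → ℂ) : lin w (z - z') = lin w z - lin w z' := by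
  simp only [lin, Pi.sub_apply, mul_sub, Finset.sum_sub_distrib]

theorem norm_lin_le {N : ℕ} (w z : Fin N → ℂ) : ‖lin w z‖ ≤ (∑ i, ‖w i‖) * ‖z‖ := by
  rw [lin, Finset.sum_mul]
  refine (norm_sum_le _ _).trans (Finset.sum_le_sum fun i _ => ?_)
  rw [norm_mul]
  exact mul_le_mul_of_nonneg_left (norm_le_pi_norm z i) (norm_nonneg _)

/-- the linear form as a continuous linear map -/
noncomputable def linL {N : ℕ} (w : Fin N → ℂ) : (Fin N → ℂ) →L[ℂ] ℂ :=
  ∑ i, w i • ContinuousLinearMap.proj (R := ℂ) (φ := fun _ : Fin N => ℂ) i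

theorem linL_apply {N : ℕ} (w z : Fin N → ℂ) : linL w z = lin w z := by
  simp [linL, lin]

theorem core (h1 : StmtK1.{u}) (h2 : StmtK2) (h3 : StmtK3.{0, u}) {n N : ℕ} {ι : Type u}
    {a : ι → (Fin n → ℂ) → Fin N → ℂ} {u : ι → ℝ} {U : Set (Fin n → ℂ)} {k : ℕ} {s₀ : ι}
    {x₁ : Fin n → ℂ} (hk : 1 ≤ k) (hU : IsOpen U) (hx₁ : x₁ ∈ U)
    (ha : ∀ s, DifferentiableOn ℂ (a s) U) (hu : Summable u)
    (hb : ∀ s, ∀ x ∈ U, ‖a s x‖ ^ k ≤ u s) (h0 : a s₀ x₁ ≠ 0)
    (hgen : ∀ s, ∀ ζ : ℂ, ζ ^ k = 1 → a s x₁ = ζ • a s₀ x₁ → ∀ᶠ x in 𝓝 x₁, a s x = ζ • a s₀ x)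
    {u₀ : Fin N → ℂ} (hP : ∑' s, lin u₀ (a s x₁) ^ k ≠ 0) {v : Fin n → ℂ}
    (hv : ∀ (w : Fin N → ℂ) (l : ℕ), 1 ≤ l →
      fderiv ℂ (fun x => (∑' s, lin w (a s x) ^ (k * l)) / (∑' s, lin u₀ (a s x) ^ k) ^ l) x₁ v = 0) :
    ∃ θ : ℂ, fderiv ℂ (a s₀) x₁ v = θ • a s₀ x₁ := by
  classical
  have hu0 : ∀ s, 0 ≤ u s := fun s => (by positivity : (0 : ℝ) ≤ ‖a s x₁‖ ^ k).trans (hb s x₁ hx₁)
  have haat : ∀ s, DifferentiableAt ℂ (a s) x₁ := fun s =>
    (ha s).differentiableAt (hU.mem_nhds hx₁)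
  -- bounds
  have hLd : ∀ w s, DifferentiableOn ℂ (fun x => lin w (a s x)) U := by
    intro w s
    have := (linL w).differentiable.comp_differentiableOn (ha s)
    exact this.congr fun x _ => (linL_apply w (a s x)).symm
  have hLb : ∀ w s, ∀ x ∈ U, ∀ l, ‖lin w (a s x) ^ (k * l)‖ ≤ ((∑ i, ‖w i‖) ^ k * u s) ^ l := by
    intro w s x hx l
    rw [pow_mul, norm_pow, norm_pow]
    apply pow_le_pow_left₀ (by positivity)
    calc ‖lin w (a s x)‖ ^ k ≤ ((∑ i, ‖w i‖) * ‖a s x‖) ^ k :=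
          pow_le_pow_left₀ (norm_nonneg _) (norm_lin_le _ _) k
      _ = (∑ i, ‖w i‖) ^ k * ‖a s x‖ ^ k := mul_pow _ _ _
      _ ≤ _ := mul_le_mul_of_nonneg_left (hb s x hx) (by positivity)
  have hsumpow : ∀ (C : ℝ), 0 ≤ C → ∀ l, 1 ≤ l → Summable fun s => (C * u s) ^ l := by
    intro C hC l hl
    obtain ⟨l, rfl⟩ : ∃ l', l = l' + 1 := ⟨l - 1, by omega⟩
    have hle : ∀ s, C * u s ≤ C * ∑' s, u s := fun s =>
      mul_le_mul_of_nonneg_left (hu.le_tsum s fun t _ => hu0 t) hC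
    refine Summable.of_nonneg_of_le (fun s => by have := hu0 s; positivity) (fun s => ?_)
      ((hu.mul_left C).mul_left ((C * ∑' s, u s) ^ l))
    rw [pow_succ]
    have := hu0 s
    exact mul_le_mul_of_nonneg_right (pow_le_pow_left₀ (by positivity) (hle s) l) (by positivity)
  -- derivative of the power sums
  have hK3 : ∀ w l, 1 ≤ l → (Summable fun s => ‖fderiv ℂ (fun x => lin w (a s x) ^ (k * l)) x₁‖) ∧
      HasFDerivAt (fun x => ∑' s, lin w (a s x) ^ (k * l))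
        (∑' s, fderiv ℂ (fun x => lin w (a s x) ^ (k * l)) x₁) x₁ := by
    intro w l hl
    exact h3 (Fin n → ℂ) ι (fun s x => lin w (a s x) ^ (k * l))
      (fun s => ((∑ i, ‖w i‖) ^ k * u s) ^ l) U hU (fun s => (hLd w s).pow _)
      (hsumpow _ (by positivity) l hl) (fun s x hx => hLb w s x hx l) x₁ hx₁
  set δ : ι → Fin N → ℂ := fun s => fderiv ℂ (a s) x₁ v with hδ
  have hfd : ∀ w s l, fderiv ℂ (fun x => lin w (a s x) ^ (k * l)) x₁ v =
      ((k * l : ℕ) : ℂ) * lin w (a s x₁) ^ (k * l - 1) * lin w (δ s) := by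
    intro w s l
    have h4 : HasFDerivAt (fun x => lin w (a s x)) ((linL w).comp (fderiv ℂ (a s) x₁)) x₁ := by
      have := (linL w).hasFDerivAt.comp x₁ (haat s).hasFDerivAt
      refine this.congr_of_eventuallyEq (Filter.Eventually.of_forall fun x => ?_)
      exact (linL_apply w (a s x)).symm
    have h5 := (h4.pow (k * l)).fderiv
    have h6 : fderiv ℂ (fun x => lin w (a s x) ^ (k * l)) x₁ v =
        ((k * l : ℕ) • lin w (a s x₁) ^ (k * l - 1)) • ((linL w).comp (fderiv ℂ (a s) x₁)) v := by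
      rw [h5]
      rfl
    rw [h6]
    simp only [ContinuousLinearMap.comp_apply, linL_apply, hδ, nsmul_eq_mul, smul_eq_mul]
  -- values
  set P : (Fin N → ℂ) → ℕ → (Fin n → ℂ) → ℂ := fun w l x => ∑' s, lin w (a s x) ^ (k * l) with hPdef
  have hP1 : ∀ x, P u₀ 1 x = ∑' s, lin u₀ (a s x) ^ k := by
    intro x
    simp only [hPdef, mul_one]
  set c : ℂ := P u₀ 1 x₁ with hc
  have hc0 : c ≠ 0 := by rw [hc, hP1]; exact hP
  have hPd : ∀ w l, 1 ≤ l → HasFDerivAt (P w l)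
      (∑' s, fderiv ℂ (fun x => lin w (a s x) ^ (k * l)) x₁) x₁ := fun w l hl => (hK3 w l hl).2
  have hPv : ∀ w l, 1 ≤ l → fderiv ℂ (P w l) x₁ v =
      ∑' s, ((k * l : ℕ) : ℂ) * lin w (a s x₁) ^ (k * l - 1) * lin w (δ s) := by
    intro w l hl
    rw [(hPd w l hl).fderiv]
    have hs : Summable fun s => fderiv ℂ (fun x => lin w (a s x) ^ (k * l)) x₁ :=
      (hK3 w l hl).1.of_norm
    have h7 := (ContinuousLinearMap.apply ℂ ℂ v).map_tsum hs
    simp only [ContinuousLinearMap.apply_apply] at h7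
    rw [h7]
    exact tsum_congr fun s => hfd w s l
  set θ : ℂ := fderiv ℂ (P u₀ 1) x₁ v / (k * c) with hθ
  have hk0 : (k : ℂ) ≠ 0 := by exact_mod_cast (by omega : k ≠ 0)
  have hrel : ∀ w l, 1 ≤ l → fderiv ℂ (P w l) x₁ v = (k * l : ℕ) * θ * P w l x₁ := by
    intro w l hl
    have h4 := hv w l hl
    have e : (fun x => (∑' s, lin w (a s x) ^ (k * l)) / (∑' s, lin u₀ (a s x) ^ k) ^ l) =
        fun x => P w l x * (P u₀ 1 x ^ l)⁻¹ := by
      funext x
      rw [hP1, div_eq_mul_inv]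
    rw [e] at h4
    have h5 : HasFDerivAt (fun x => P u₀ 1 x ^ l)
        ((l • (P u₀ 1 x₁) ^ (l - 1)) • fderiv ℂ (P u₀ 1) x₁) x₁ :=
      (hPd u₀ 1 le_rfl).differentiableAt.hasFDerivAt.pow l
    have hcl : P u₀ 1 x₁ ^ l ≠ 0 := pow_ne_zero _ hc0
    have h6 := (hPd w l hl).differentiableAt.hasFDerivAt.mul
      ((hasDerivAt_inv hcl).comp_hasFDerivAt x₁ h5)
    have h7 : fderiv ℂ (fun x => P w l x * (P u₀ 1 x ^ l)⁻¹) x₁ v =
        P w l x₁ * (-((c ^ l) ^ 2)⁻¹ * ((l * c ^ (l - 1)) * fderiv ℂ (P u₀ 1) x₁ v)) +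
        (c ^ l)⁻¹ * fderiv ℂ (P w l) x₁ v := by
      have h8 : fderiv ℂ (fun x => P w l x * (P u₀ 1 x ^ l)⁻¹) x₁ = _ := h6.fderiv
      rw [h8, ← nsmul_eq_mul]
      rfl
    rw [h7] at h4
    have hl' : c ^ l = c ^ (l - 1) * c := by
      rw [← pow_succ]
      congr 1
      omega
    have hcl1 : c ^ (l - 1) ≠ 0 := pow_ne_zero _ hc0
    rw [hθ]
    rw [hl'] at h4
    push_cast
    field_simp at h4 ⊢
    linear_combination h4
  -- the families for K1
  have hzero : ∀ w, (∀ l : ℕ, ∑' s, (lin w (a s x₁) ^ k) ^ l *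
      (lin w (a s x₁) ^ (k - 1) * (lin w (δ s) - θ * lin w (a s x₁))) = 0) := by
    intro w l
    have h4 := hrel w (l + 1) (by omega)
    rw [hPv w (l + 1) (by omega)] at h4
    have hs1 : Summable fun s => ((k * (l + 1) : ℕ) : ℂ) * lin w (a s x₁) ^ (k * (l + 1) - 1) *
        lin w (δ s) := by
      have hs := (hK3 w (l + 1) (by omega)).1
      refine Summable.of_norm_bounded (hs.mul_right ‖v‖) fun s => ?_
      rw [← hfd w s (l + 1)]
      exact ContinuousLinearMap.le_opNorm _ _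
    have hs2 : Summable fun s => lin w (a s x₁) ^ (k * (l + 1)) :=
      Summable.of_norm_bounded (hsumpow _ (by positivity) (l + 1) (by omega))
        fun s => hLb w s x₁ hx₁ (l + 1)
    have hkl : ((k * (l + 1) : ℕ) : ℂ) ≠ 0 := by
      have : k * (l + 1) ≠ 0 := Nat.mul_ne_zero (by omega) (by omega)
      exact_mod_cast this
    have h5 : ∑' s, (((k * (l + 1) : ℕ) : ℂ) * lin w (a s x₁) ^ (k * (l + 1) - 1) * lin w (δ s) -
        ((k * (l + 1) : ℕ) : ℂ) * θ * lin w (a s x₁) ^ (k * (l + 1))) = 0 := by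
      rw [hs1.tsum_sub (hs2.mul_left _), tsum_mul_left, h4]
      simp only [hPdef]
      ring
    have h6 : (fun s => ((k * (l + 1) : ℕ) : ℂ) * lin w (a s x₁) ^ (k * (l + 1) - 1) * lin w (δ s) -
        ((k * (l + 1) : ℕ) : ℂ) * θ * lin w (a s x₁) ^ (k * (l + 1))) = fun s =>
        ((k * (l + 1) : ℕ) : ℂ) * ((lin w (a s x₁) ^ k) ^ l *
        (lin w (a s x₁) ^ (k - 1) * (lin w (δ s) - θ * lin w (a s x₁)))) := by
      funext s
      obtain ⟨k', rfl⟩ : ∃ k', k = k' + 1 := ⟨k - 1, by omega⟩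
      have e1 : (k' + 1) * (l + 1) - 1 = (k' + 1) * l + k' := by
        have : (k' + 1) * (l + 1) = (k' + 1) * l + k' + 1 := by ring
        omega
      have e2 : (k' + 1) * (l + 1) = (k' + 1) * l + k' + 1 := by ring
      rw [e1, Nat.add_sub_cancel]
      conv_lhs => rw [show lin w (a s x₁) ^ ((k' + 1) * (l + 1)) =
        lin w (a s x₁) ^ ((k' + 1) * l + k' + 1) by rw [e2]]
      rw [pow_succ, pow_add, pow_mul]
      ring
    rw [h6, tsum_mul_left] at h5
    exact (mul_eq_zero.1 h5).resolve_left hkl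
  have hesum : ∀ w, Summable fun s =>
      ‖lin w (a s x₁) ^ (k - 1) * (lin w (δ s) - θ * lin w (a s x₁))‖ := by
    intro w
    have hs := (hK3 w 1 le_rfl).1
    have hs2 : Summable fun s => ‖lin w (a s x₁) ^ (k * 1)‖ :=
      Summable.of_nonneg_of_le (fun s => norm_nonneg _) (fun s => hLb w s x₁ hx₁ 1)
        (hsumpow _ (by positivity) 1 le_rfl)
    refine Summable.of_nonneg_of_le (fun s => norm_nonneg _) (fun s => ?_)
      ((hs.mul_right ‖v‖).add (hs2.mul_left ‖θ‖))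
    have e3 : lin w (a s x₁) ^ (k - 1) * (lin w (δ s) - θ * lin w (a s x₁)) =
        (k : ℂ)⁻¹ * (fderiv ℂ (fun x => lin w (a s x) ^ (k * 1)) x₁ v) -
        θ * lin w (a s x₁) ^ (k * 1) := by
      rw [hfd]
      obtain ⟨k', rfl⟩ : ∃ k', k = k' + 1 := ⟨k - 1, by omega⟩
      simp only [mul_one, Nat.add_sub_cancel]
      field_simp
      ring
    rw [e3]
    refine (norm_sub_le _ _).trans (add_le_add ?_ (by rw [norm_mul]))
    rw [norm_mul]
    calc ‖(k : ℂ)⁻¹‖ * ‖fderiv ℂ (fun x => lin w (a s x) ^ (k * 1)) x₁ v‖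
        ≤ 1 * ‖fderiv ℂ (fun x => lin w (a s x) ^ (k * 1)) x₁ v‖ := by
          apply mul_le_mul_of_nonneg_right _ (norm_nonneg _)
          rw [norm_inv, Complex.norm_natCast]
          exact inv_le_one_of_one_le₀ (by exact_mod_cast hk)
      _ ≤ _ := by
          rw [one_mul]
          exact ContinuousLinearMap.le_opNorm _ _
  have hBt : ∀ w, Tendsto (fun s => lin w (a s x₁) ^ k) cofinite (𝓝 0) := by
    intro w
    have hs2 : Summable fun s => lin w (a s x₁) ^ (k * 1) :=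
      Summable.of_norm_bounded (hsumpow _ (by positivity) 1 le_rfl)
        fun s => hLb w s x₁ hx₁ 1
    simpa using hs2.tendsto_cofinite_zero
  -- the generic functionals
  set W : Set (Fin N → ℂ) := {z | z ≠ 0 ∧ ((∃ s, ∃ ζ : ℂ, ζ ^ k = 1 ∧ z = a s x₁ - ζ • a s₀ x₁) ∨
    z = a s₀ x₁)} with hW
  have hWc : W.Countable := by
    have hsupp : (Set.range fun s => a s x₁).Countable := by
      have h4 : Summable fun s => ‖a s x₁‖ ^ k :=
        Summable.of_nonneg_of_le (fun s => by positivity) (fun s => hb s x₁ hx₁) hu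
      have h5 : (Function.support fun s => ‖a s x₁‖ ^ k).Countable := h4.countable_support
      refine ((h5.image fun s => a s x₁).union (Set.countable_singleton 0)).mono ?_
      rintro _ ⟨s, rfl⟩
      by_cases h6 : a s x₁ = 0
      · right; exact h6
      · left
        refine ⟨s, ?_, rfl⟩
        simp only [Function.mem_support]
        exact pow_ne_zero _ (norm_ne_zero_iff.2 h6)
    have hroots : {ζ : ℂ | ζ ^ k = 1}.Finite := by
      have : {ζ : ℂ | ζ ^ k = 1} ⊆ ((Polynomial.nthRoots k (1 : ℂ)).toFinset : Set ℂ) := by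
        intro ζ hζ
        simp only [Finset.mem_coe, Multiset.mem_toFinset]
        exact (Polynomial.mem_nthRoots (by omega)).2 hζ
      exact (Finset.finite_toSet _).subset this
    refine ((Set.Countable.image2 hsupp hroots.countable fun z ζ => z - ζ • a s₀ x₁).union
      (Set.countable_singleton (a s₀ x₁))).mono ?_
    rintro z ⟨-, ⟨s, ζ, hζ, rfl⟩ | rfl⟩
    · left
      exact ⟨a s x₁, ⟨s, rfl⟩, ζ, hζ, rfl⟩
    · right; rfl
  have hfinal : δ s₀ - θ • a s₀ x₁ = 0 := by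
    refine h2 N W _ hWc (fun h => h.1 rfl) fun w hw => ?_
    have hw0 : lin w (a s₀ x₁) ≠ 0 := hw _ ⟨h0, Or.inr rfl⟩
    have key := h1 ι (fun s => lin w (a s x₁) ^ k) _ (hesum w) (hBt w) (hzero w)
      (lin w (a s₀ x₁) ^ k) (pow_ne_zero _ hw0)
    have hfin : {s | lin w (a s x₁) ^ k = lin w (a s₀ x₁) ^ k}.Finite := by
      have h4 := (hBt w).norm.eventually
        (gt_mem_nhds (a := ‖lin w (a s₀ x₁) ^ k‖) (by
          rw [norm_zero]; exact norm_pos_iff.2 (pow_ne_zero _ hw0)))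
      rw [eventually_cofinite] at h4
      refine h4.subset fun s hs => ?_
      simp only [Set.mem_ofPred_eq] at hs ⊢
      rw [hs]
      exact lt_irrefl _
    have hval : ∀ s ∈ {s | lin w (a s x₁) ^ k = lin w (a s₀ x₁) ^ k},
        lin w (a s x₁) ^ (k - 1) * (lin w (δ s) - θ * lin w (a s x₁)) =
        lin w (a s₀ x₁) ^ (k - 1) * (lin w (δ s₀) - θ * lin w (a s₀ x₁)) := by
      intro s hs
      have hs' : lin w (a s x₁) ^ k = lin w (a s₀ x₁) ^ k := hs
      set ζ : ℂ := lin w (a s x₁) / lin w (a s₀ x₁) with hζ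
      have hζk : ζ ^ k = 1 := by
        rw [hζ, div_pow, hs', div_self (pow_ne_zero _ hw0)]
      have hζm : lin w (a s x₁) = ζ * lin w (a s₀ x₁) := by
        rw [hζ, div_mul_cancel₀ _ hw0]
      have hz : a s x₁ = ζ • a s₀ x₁ := by
        by_contra hne
        have h4 : a s x₁ - ζ • a s₀ x₁ ∈ W := ⟨sub_ne_zero.2 hne, Or.inl ⟨s, ζ, hζk, rfl⟩⟩
        apply hw _ h4
        have : lin w (a s x₁ - ζ • a s₀ x₁) = 0 := by
          rw [lin_sub, lin_smul, hζm, sub_self]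
        exact this
      have hev := hgen s ζ hζk hz
      have hder : δ s = ζ • δ s₀ := by
        simp only [hδ]
        have h5 : fderiv ℂ (a s) x₁ = fderiv ℂ (fun x => ζ • a s₀ x) x₁ :=
          Filter.EventuallyEq.fderiv_eq hev
        rw [h5, fderiv_fun_const_smul (haat s₀)]
        rfl
      rw [hder, lin_smul, hζm]
      have h6 : ζ ^ (k - 1) * ζ = 1 := by
        rw [← pow_succ, Nat.sub_add_cancel hk, hζk]
      rw [mul_pow]
      linear_combination (lin w (a s₀ x₁) ^ (k - 1) * (lin w (δ s₀) - θ * lin w (a s₀ x₁))) * h6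
    have hsum : (hfin.toFinset.card : ℂ) *
        (lin w (a s₀ x₁) ^ (k - 1) * (lin w (δ s₀) - θ * lin w (a s₀ x₁))) = 0 := by
      rw [← nsmul_eq_mul, ← Finset.sum_const, ← key, finsum_mem_eq_finite_toFinset_sum _ hfin]
      refine Finset.sum_congr rfl fun s hs => ?_
      exact (hval s ((Set.Finite.mem_toFinset hfin).1 hs)).symm
    have hcard : (hfin.toFinset.card : ℂ) ≠ 0 := by
      have : s₀ ∈ hfin.toFinset := (Set.Finite.mem_toFinset hfin).2 rfl
      exact_mod_cast (Finset.card_pos.2 ⟨s₀, this⟩).ne'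
    have h7 := (mul_eq_zero.1 hsum).resolve_left hcard
    have h8 := (mul_eq_zero.1 h7).resolve_left (pow_ne_zero _ hw0)
    change lin w (δ s₀ - θ • a s₀ x₁) = 0
    rw [lin_sub, lin_smul]
    exact h8
  exact ⟨θ, sub_eq_zero.1 hfinal⟩

end Pool.Agent.Helper96.Kod
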