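import Pool.Agent.Helper16.Abund.Semi

/-!
Kodaira dimension of complex manifolds, through ratios of pluricanonical forms.
-/

open scoped Manifold ContDiff ENNReal Topology
open MeasureTheory Filter
open Pool.Agent.Helper16.Abund

namespace Pool.Agent.Helper96.Kod

universe u

/-- The differential at `x` of the map `F` from `M` to `ℂʳ` (in the preferred chart at `x`). -/
noncomputable def difL (n r : ℕ) {M : Type*} [TopologicalSpace M] [ChartedSpace (Fin n → ℂ) M]
    (F : M → Fin r → ℂ) (x : M) : (Fin n → ℂ) →L[ℂ] (Fin r → ℂ) :=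
  mfderiv 𝓘(ℂ, Fin n → ℂ) 𝓘(ℂ, Fin r → ℂ) F x

/-- The differential `difL n r F x` evaluated at the vector `v`. -/
noncomputable def dif (n r : ℕ) {M : Type*} [TopologicalSpace M] [ChartedSpace (Fin n → ℂ) M]
    (F : M → Fin r → ℂ) (x : M) (v : Fin n → ℂ) : Fin r → ℂ :=
  difL n r F x v

/-- The form `c 0` is not zero at `x`, and the ratios `c 1 / c 0, ..., c r / c 0` (meromorphic
functions, holomorphic near `x`) have linearly independent differentials at `x`. -/
def IndepAt (n r : ℕ) {M : Type*} [TopologicalSpace M] [ChartedSpace (Fin n → ℂ) M]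
    (c : Fin (r + 1) → M → ℂ) (x : M) : Prop :=
  c 0 x ≠ 0 ∧ Function.Surjective (dif n r (fun y (i : Fin r) => c i.succ y / c 0 y) x)

/-- The Kodaira dimension of `M` is at least `r`: for some `ℓ ≥ 1` there are `r + 1` `ℓ`-canonical
forms on `M` whose ratios have linearly independent differentials at some point. (For `M` the
regular locus of a compact normal complex space `X`: the Kodaira dimension of `K_X` is at least
`r`.) -/
def KodairaGE (n r : ℕ) (M : Type*) [TopologicalSpace M] [ChartedSpace (Fin n → ℂ) M] : Prop :=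
  ∃ ℓ : ℕ, 1 ≤ ℓ ∧ ∃ c : Fin (r + 1) → M → ℂ, (∀ i, IsPluriForm n M ℓ (c i)) ∧
    ∃ x, IndepAt n r c x

end Pool.Agent.Helper96.Kod
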