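import Pool.Agent.Helper16.Abund.Semi
import Pool.Agent.Helper96.Kod.Defs
import Pool.Agent.Helper96.Kod.Core

/-! Traces of linear combinations of `L^q` forms. -/

open scoped Manifold ContDiff ENNReal Topology
open MeasureTheory Metric
open Pool.Agent.Helper8.Abund (differentiableOn_fderiv)
open Pool.Agent.Helper16.Abund

namespace Pool.Agent.Helper96.Kod

variable {n : ℕ} {X Y : Type*} [TopologicalSpace X] [ChartedSpace (Fin n → ℂ) X]
    [TopologicalSpace Y] [ChartedSpace (Fin n → ℂ) Y]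

/-- local uniform `ℓ^q` bound of the sheets -/
def LocBd (n : ℕ) {X Y : Type*} [TopologicalSpace X] [ChartedSpace (Fin n → ℂ) X]
    [TopologicalSpace Y] [ChartedSpace (Fin n → ℂ) Y] (p : Y → X) (m : ℕ) (q : ℝ)
    (η : Y → ℂ) : Prop :=
  ∀ (x₀ : X) (U : Set X) (σ : (p ⁻¹' {x₀}) → X → Y), Sheets (n := n) p x₀ U σ →
    ∃ r : ℝ, 0 < r ∧ ∃ u : (p ⁻¹' {x₀}) → ℝ, Summable u ∧ (∀ i, 0 ≤ u i) ∧
      ∀ z ∈ ball (chartAt (Fin n → ℂ) x₀ x₀) r, z ∈ (chartAt (Fin n → ℂ) x₀).target ∧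
        (chartAt (Fin n → ℂ) x₀).symm z ∈ U ∧
        ∀ i, ‖η (σ i ((chartAt (Fin n → ℂ) x₀).symm z)) *
          jac n (fun w => σ i ((chartAt (Fin n → ℂ) x₀).symm w)) z ^ m‖ ^ q ≤ u i

theorem locBd_of_fibreLq [IsManifold 𝓘(ℂ, Fin n → ℂ) ω X] {p : Y → X}
    (hloc : IsLocalDiffeomorph 𝓘(ℂ, Fin n → ℂ) 𝓘(ℂ, Fin n → ℂ) ω p) {m : ℕ} {η : Y → ℂ}
    (hη : IsPluriForm n Y m η) {q : ℝ} (hq : 0 < q) (hLq : FibreLq n p m q η) :
    LocBd n p m q η := fun _ _ _ S => exists_bound hloc hη hq hLq S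

/-- vector version of the local bound -/
theorem locBd_vec {N : ℕ} {p : Y → X} {m : ℕ} {η : Fin (N + 1) → Y → ℂ} {q : ℝ} (hq : 0 < q)
    (h : ∀ i, LocBd n p m q (η i)) (x₀ : X) (U : Set X) (σ : (p ⁻¹' {x₀}) → X → Y)
    (S : Sheets (n := n) p x₀ U σ) :
    ∃ r : ℝ, 0 < r ∧ ∃ u : (p ⁻¹' {x₀}) → ℝ, Summable u ∧ (∀ s, 0 ≤ u s) ∧
      ∀ z ∈ ball (chartAt (Fin n → ℂ) x₀ x₀) r, z ∈ (chartAt (Fin n → ℂ) x₀).target ∧
        (chartAt (Fin n → ℂ) x₀).symm z ∈ U ∧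
        ∀ s, ‖fun i => η i (σ s ((chartAt (Fin n → ℂ) x₀).symm z)) *
          jac n (fun w => σ s ((chartAt (Fin n → ℂ) x₀).symm w)) z ^ m‖ ^ q ≤ u s := by
  classical
  choose r hr u hu hu0 hb using fun i => h i x₀ U σ S
  refine ⟨Finset.univ.inf' ⟨0, Finset.mem_univ _⟩ r, ?_, fun s => ∑ i, u i s, ?_, ?_, ?_⟩
  · rw [Finset.lt_inf'_iff]
    exact fun i _ => hr i
  · exact summable_sum fun i _ => hu i
  · exact fun s => Finset.sum_nonneg fun i _ => hu0 i s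
  · intro z hz
    have hz' : ∀ i, z ∈ ball (chartAt (Fin n → ℂ) x₀ x₀) (r i) := fun i =>
      ball_subset_ball (Finset.inf'_le r (Finset.mem_univ i)) hz
    refine ⟨(hb 0 z (hz' 0)).1, (hb 0 z (hz' 0)).2.1, fun s => ?_⟩
    have hS0 : 0 ≤ ∑ i, u i s := Finset.sum_nonneg fun i _ => hu0 i s
    set v : Fin (N + 1) → ℂ := fun i => η i (σ s ((chartAt (Fin n → ℂ) x₀).symm z)) *
      jac n (fun w => σ s ((chartAt (Fin n → ℂ) x₀).symm w)) z ^ m with hv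
    have h1 : ‖v‖ ≤ (∑ i, u i s) ^ (1 / q) := by
      rw [pi_norm_le_iff_of_nonneg (by positivity)]
      intro i
      have h2 : ‖v i‖ ^ q ≤ ∑ i, u i s := ((hb i z (hz' i)).2.2 s).trans
        (Finset.single_le_sum (f := fun i => u i s) (fun i _ => hu0 i s) (Finset.mem_univ i))
      calc ‖v i‖ = (‖v i‖ ^ q) ^ (1 / q) := by
            rw [← Real.rpow_mul (norm_nonneg _), mul_one_div_cancel hq.ne', Real.rpow_one]
        _ ≤ _ := Real.rpow_le_rpow (by positivity) h2 (by positivity)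
    calc ‖v‖ ^ q ≤ ((∑ i, u i s) ^ (1 / q)) ^ q :=
          Real.rpow_le_rpow (norm_nonneg _) h1 hq.le
      _ = ∑ i, u i s := by
          rw [← Real.rpow_mul hS0, one_div_mul_cancel hq.ne', Real.rpow_one]

/-- linear combinations of forms -/
theorem isPluriForm_lin {N : ℕ} {m : ℕ} {η : Fin N → Y → ℂ} (hη : ∀ i, IsPluriForm n Y m (η i))
    (w : Fin N → ℂ) : IsPluriForm n Y m (fun y => lin w (fun i => η i y)) := by
  intro V ψ hV hψ
  have h1 : DifferentiableOn ℂ (fun z => ∑ i, w i * (η i (ψ z) * jac n ψ z ^ m)) V :=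
    DifferentiableOn.fun_sum fun i _ => (hη i V ψ hV hψ).const_mul (w i)
  refine h1.congr fun z _ => ?_
  simp only [lin, Finset.sum_mul]
  exact Finset.sum_congr rfl fun i _ => by ring

theorem locBd_lin {N : ℕ} {p : Y → X} {m : ℕ} {η : Fin (N + 1) → Y → ℂ} {q : ℝ} (hq : 0 < q)
    (h : ∀ i, LocBd n p m q (η i)) (w : Fin (N + 1) → ℂ) :
    LocBd n p m q (fun y => lin w (fun i => η i y)) := by
  intro x₀ U σ S
  obtain ⟨r, hr, u, hu, hu0, hb⟩ := locBd_vec hq h x₀ U σ S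
  refine ⟨r, hr, fun s => (∑ i, ‖w i‖) ^ q * u s, hu.mul_left _, fun s => by
    have := hu0 s; positivity, fun z hz => ⟨(hb z hz).1, (hb z hz).2.1, fun s => ?_⟩⟩
  have h1 := (hb z hz).2.2 s
  set v : Fin (N + 1) → ℂ := fun i => η i (σ s ((chartAt (Fin n → ℂ) x₀).symm z)) *
      jac n (fun w => σ s ((chartAt (Fin n → ℂ) x₀).symm w)) z ^ m with hv
  have e : lin w (fun i => η i (σ s ((chartAt (Fin n → ℂ) x₀).symm z))) *
      jac n (fun w => σ s ((chartAt (Fin n → ℂ) x₀).symm w)) z ^ m = lin w v := by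
    simp only [lin, hv, Finset.sum_mul]
    exact Finset.sum_congr rfl fun i _ => by ring
  rw [e]
  calc ‖lin w v‖ ^ q ≤ ((∑ i, ‖w i‖) * ‖v‖) ^ q :=
        Real.rpow_le_rpow (norm_nonneg _) (norm_lin_le _ _) hq.le
    _ = (∑ i, ‖w i‖) ^ q * ‖v‖ ^ q := Real.mul_rpow (by positivity) (norm_nonneg _)
    _ ≤ _ := mul_le_mul_of_nonneg_left h1 (by positivity)

/-- The trace theorem for locally bounded families of sheets (proof of helper16). -/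
theorem isPluriForm_trace' [IsManifold 𝓘(ℂ, Fin n → ℂ) ω X] {p : Y → X} (hcov : IsCoveringMap p)
    (hloc : IsLocalDiffeomorph 𝓘(ℂ, Fin n → ℂ) 𝓘(ℂ, Fin n → ℂ) ω p) {m : ℕ} {η : Y → ℂ}
    (hη : IsPluriForm n Y m η) {q : ℝ} (hq : 0 < q) (hLq : LocBd n p m q η) {k : ℕ}
    (hk : q ≤ k) : IsPluriForm n X (m * k) (trace n p m k η) := by
  classical
  intro V ψ hV hψ z₀ hz₀
  set x₀ := ψ z₀ with hx₀
  obtain ⟨U, σ, S⟩ := exists_sheets (n := n) hcov hloc x₀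
  obtain ⟨r, hr, u, hu, hu0, hb⟩ := hLq x₀ U σ S
  set χ := chartAt (Fin n → ℂ) x₀ with hχ
  have hψc : ContinuousAt ψ z₀ := (hψ.mdifferentiableAt (hV.mem_nhds hz₀)).continuousAt
  -- the open set where everything is defined
  have hsrc : ∀ᶠ z in 𝓝 z₀, ψ z ∈ χ.source :=
    hψc.preimage_mem_nhds (χ.open_source.mem_nhds (mem_chart_source _ x₀))
  have hUn : ∀ᶠ z in 𝓝 z₀, ψ z ∈ U := hψc.preimage_mem_nhds (S.isOpen.mem_nhds S.mem)
  obtain ⟨V₁, hV₁sub, hV₁o, hz₀V₁⟩ := _root_.mem_nhds_iff.1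
    (Filter.inter_mem (hV.mem_nhds hz₀) (hsrc.and hUn))
  have hψ₁ : MDifferentiableOn 𝓘(ℂ, Fin n → ℂ) 𝓘(ℂ, Fin n → ℂ) ψ V₁ :=
    hψ.mono fun z hz => (hV₁sub hz).1
  have hψat : ∀ z ∈ V₁, MDifferentiableAt 𝓘(ℂ, Fin n → ℂ) 𝓘(ℂ, Fin n → ℂ) ψ z :=
    fun z hz => hψ₁.mdifferentiableAt (hV₁o.mem_nhds hz)
  have hχat : ∀ z ∈ V₁, MDifferentiableAt 𝓘(ℂ, Fin n → ℂ) 𝓘(ℂ, Fin n → ℂ) χ (ψ z) :=
    fun z hz => (mdiff_chart x₀).mdifferentiableAt (χ.open_source.mem_nhds (hV₁sub hz).2.1)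
  have hχψ : ∀ z ∈ V₁, MDifferentiableAt 𝓘(ℂ, Fin n → ℂ) 𝓘(ℂ, Fin n → ℂ) (χ ∘ ψ) z :=
    fun z hz => (hχat z hz).comp z (hψat z hz)
  have hh : DifferentiableOn ℂ (χ ∘ ψ) V₁ := fun z hz =>
    (hχψ z hz).differentiableAt.differentiableWithinAt
  obtain ⟨C, hC, hCb⟩ := exists_jac_bound hV₁o hh hz₀V₁
  have hballn : ∀ᶠ z in 𝓝 z₀, (χ ∘ ψ) z ∈ ball (χ x₀) r :=
    (hχψ z₀ hz₀V₁).continuousAt.preimage_mem_nhds (isOpen_ball.mem_nhds (mem_ball_self hr))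
  obtain ⟨W, hWsub, hWo, hz₀W⟩ := _root_.mem_nhds_iff.1
    (Filter.inter_mem (hV₁o.mem_nhds hz₀V₁) (hCb.and hballn))
  -- the summands
  let H : (p ⁻¹' {x₀}) → (Fin n → ℂ) → ℂ := fun i z =>
    (η (σ i (ψ z)) * jac n (fun w => σ i (ψ w)) z ^ m) ^ k
  have hHd : ∀ i, DifferentiableOn ℂ (H i) W := by
    intro i
    exact (hη.sheet S i hWo (hψ₁.mono fun z hz => (hWsub hz).1)
      fun z hz => (hV₁sub (hWsub hz).1).2.2).pow k
  have hHb : ∀ i, ∀ z ∈ W, ‖H i z‖ ≤ C ^ (m * k) * u i ^ ((k : ℝ) / q) := by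
    intro i z hz
    have hzV := (hWsub hz).1
    have hzs := (hV₁sub hzV).2.1
    have hzU := (hV₁sub hzV).2.2
    have hzb : χ (ψ z) ∈ ball (χ x₀) r := (hWsub hz).2.2
    obtain ⟨ht, hU', hbi⟩ := hb _ hzb
    rw [χ.left_inv hzs] at hU' 
    have hb' := hbi i
    rw [χ.left_inv hzs] at hb'
    -- chain rule
    have e1 : jac n (fun w => σ i (ψ w)) z =
        jac n (fun w => σ i (χ.symm w)) (χ (ψ z)) * jac n (χ ∘ ψ) z := by
      have hs : MDifferentiableAt 𝓘(ℂ, Fin n → ℂ) 𝓘(ℂ, Fin n → ℂ) χ.symm (χ (ψ z)) :=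
        (mdiff_chart_symm x₀).mdifferentiableAt (χ.open_target.mem_nhds ht)
      have hσ : MDifferentiableAt 𝓘(ℂ, Fin n → ℂ) 𝓘(ℂ, Fin n → ℂ) (σ i)
          (χ.symm (χ (ψ z))) := by
        rw [χ.left_inv hzs]
        exact (S.mdiff i).mdifferentiableAt (S.isOpen.mem_nhds hzU)
      have hc : MDifferentiableAt 𝓘(ℂ, Fin n → ℂ) 𝓘(ℂ, Fin n → ℂ)
          (fun w => σ i (χ.symm w)) ((χ ∘ ψ) z) := hσ.comp _ hs
      refine Eq.trans ?_ (jac_comp hc (hχψ z hzV))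
      apply jac_congr
      filter_upwards [hV₁o.mem_nhds hzV] with w hw
      simp only [Function.comp_apply]
      rw [χ.left_inv (hV₁sub hw).2.1]
    have e2 : H i z = (η (σ i (ψ z)) *
        jac n (fun w => σ i (χ.symm w)) (χ (ψ z)) ^ m) ^ k * jac n (χ ∘ ψ) z ^ (m * k) := by
      simp only [H]
      rw [e1, mul_pow _ _ m, pow_mul, ← mul_pow _ _ k]
      congr 1
      ring
    rw [e2, norm_mul, norm_pow, norm_pow, mul_comm]
    apply mul_le_mul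
    · exact pow_le_pow_left₀ (norm_nonneg _) (hWsub hz).2.1 _
    · exact norm_pow_le_rpow (norm_nonneg _) hq hb' k
    · positivity
    · positivity
  have hk1 : 1 ≤ (k : ℝ) / q := by rwa [one_le_div hq]
  have hsum : Summable fun i => C ^ (m * k) * u i ^ ((k : ℝ) / q) :=
    (summable_rpow_of_one_le hu hu0 hk1).mul_left _
  have hD := differentiableOn_tsum hWo hHd hsum hHb
  have hDat : DifferentiableAt ℂ (fun z => ∑' i, H i z) z₀ :=
    hD.differentiableAt (hWo.mem_nhds hz₀W)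
  have hev : (fun z => trace n p m k η (ψ z) * jac n ψ z ^ (m * k)) =ᶠ[𝓝 z₀]
      fun z => ∑' i, H i z := by
    filter_upwards [hWo.mem_nhds hz₀W] with z hz
    exact trace_mul_jac hloc S k (hψat z (hWsub hz).1) (hV₁sub (hWsub hz).1).2.2
  exact (hDat.congr_of_eventuallyEq hev).differentiableWithinAt


end Pool.Agent.Helper96.Kod
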