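import Pool.Agent.Helper96.Kod.Defs

/-! Conditions on the coverings of `M`. -/

open scoped Manifold ContDiff
open Pool.Agent.Helper16.Abund

namespace Pool.Agent.Helper96.Kod

universe u

/-- `p : Y → M` is a holomorphic covering: a covering map which is locally biholomorphic. -/
def HolCov (n : ℕ) {Y M : Type*} [TopologicalSpace Y] [ChartedSpace (Fin n → ℂ) Y]
    [TopologicalSpace M] [ChartedSpace (Fin n → ℂ) M] (p : Y → M) : Prop :=
  IsCoveringMap p ∧ IsLocalDiffeomorph 𝓘(ℂ, Fin n → ℂ) 𝓘(ℂ, Fin n → ℂ) ω p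

/-- `η` is an `m`-canonical form on `Y`, in `L^q` over `M`. -/
def IsLqForm (n : ℕ) {Y M : Type*} [TopologicalSpace Y] [ChartedSpace (Fin n → ℂ) Y]
    [TopologicalSpace M] [ChartedSpace (Fin n → ℂ) M] (p : Y → M) (m : ℕ) (q : ℝ)
    (η : Y → ℂ) : Prop :=
  IsPluriForm n Y m η ∧ FibreLq n p m q η

/-- The map `f` from `Y` to `ℂʳ` is holomorphic. -/
def IsHolMap (n r : ℕ) {Y : Type*} [TopologicalSpace Y] [ChartedSpace (Fin n → ℂ) Y]
    (f : Y → Fin r → ℂ) : Prop :=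
  MDifferentiable 𝓘(ℂ, Fin n → ℂ) 𝓘(ℂ, Fin r → ℂ) f

/-- The `r` components of `f` are bounded holomorphic functions on `Y` with linearly independent
differentials at `y₀`. -/
def BoundedIndepAt (n r : ℕ) {Y : Type*} [TopologicalSpace Y] [ChartedSpace (Fin n → ℂ) Y]
    (f : Y → Fin r → ℂ) (y₀ : Y) : Prop :=
  IsHolMap n r f ∧ (∃ C : ℝ, ∀ y i, ‖f y i‖ ≤ C) ∧ Function.Surjective (dif n r f y₀)

/-- Some covering `p : Y → M` by a complex manifold `Y` (finite or infinite, Galois or not,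
connected or not) carries `r + 1` `m`-canonical forms, `m ≥ 1`, in `L^q` over `M` for some `q > 0`,
whose ratios have linearly independent differentials at some point of `Y`. -/
def LqForms (n r : ℕ) (M : Type u) [TopologicalSpace M] [ChartedSpace (Fin n → ℂ) M] : Prop :=
  ∃ (Y : Type u) (_ : TopologicalSpace Y) (_ : ChartedSpace (Fin n → ℂ) Y)
    (_ : IsManifold 𝓘(ℂ, Fin n → ℂ) ω Y) (p : Y → M) (m : ℕ) (q : ℝ) (η : Fin (r + 1) → Y → ℂ),
    HolCov n p ∧ 1 ≤ m ∧ 0 < q ∧ (∀ i, IsLqForm n p m q (η i)) ∧ ∃ y, IndepAt n r η y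

/-- Some covering `p : Y → M` carries one `m`-canonical form `η`, `m ≥ 1`, in `L^q` over `M` for
some `q > 0`, and `r` bounded holomorphic functions with linearly independent differentials at some
point at which `η` is not zero. -/
def LqAndBounded (n r : ℕ) (M : Type u) [TopologicalSpace M] [ChartedSpace (Fin n → ℂ) M] : Prop :=
  ∃ (Y : Type u) (_ : TopologicalSpace Y) (_ : ChartedSpace (Fin n → ℂ) Y)
    (_ : IsManifold 𝓘(ℂ, Fin n → ℂ) ω Y) (p : Y → M) (m : ℕ) (q : ℝ) (η : Y → ℂ)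
    (f : Y → Fin r → ℂ) (y₀ : Y),
    HolCov n p ∧ 1 ≤ m ∧ 0 < q ∧ IsLqForm n p m q η ∧ η y₀ ≠ 0 ∧ BoundedIndepAt n r f y₀

/-- Some nonempty bounded open subset `W` of `ℂⁿ` (connected or not) is a covering of `M`. -/
def DomainCovered (n : ℕ) (M : Type u) [TopologicalSpace M] [ChartedSpace (Fin n → ℂ) M] : Prop :=
  ∃ (W : TopologicalSpace.Opens (Fin n → ℂ)) (p : W → M),
    Bornology.IsBounded (W : Set (Fin n → ℂ)) ∧ (W : Set (Fin n → ℂ)).Nonempty ∧ HolCov n p

end Pool.Agent.Helper96.Kod
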