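import Pool.Agent.Helper96.Kod.Defs2

/-! Pluricanonical forms along a holomorphic map `φ : F → M`. -/

open scoped Manifold ContDiff
open Pool.Agent.Helper16.Abund

namespace Pool.Agent.Helper96.Kod

/-- The manifold `Y` carries an `m`-canonical form, `m ≥ 1`, in `L^q` over `M` for some `q > 0`,
which is not zero at `y₀`. -/
def LqFormAt (n : ℕ) {Y M : Type*} [TopologicalSpace Y] [ChartedSpace (Fin n → ℂ) Y]
    [TopologicalSpace M] [ChartedSpace (Fin n → ℂ) M] (p : Y → M) (y₀ : Y) : Prop :=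
  ∃ (m : ℕ) (q : ℝ) (η : Y → ℂ), 1 ≤ m ∧ 0 < q ∧ IsLqForm n p m q η ∧ η y₀ ≠ 0

/-- The map `φ` from the `k`-dimensional manifold `F` to the `n`-dimensional manifold `M` is
holomorphic. -/
def Holo (n k : ℕ) {F M : Type*} [TopologicalSpace F] [ChartedSpace (Fin k → ℂ) F]
    [TopologicalSpace M] [ChartedSpace (Fin n → ℂ) M] (φ : F → M) : Prop :=
  MDifferentiable 𝓘(ℂ, Fin k → ℂ) 𝓘(ℂ, Fin n → ℂ) φ

/-- For some `ℓ ≥ 1` there are two `ℓ`-canonical forms on `M` whose restrictions to the image of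
`φ : F → M` (as sections of the `ℓ`-th power of the canonical bundle of `M`) are linearly
independent. -/
def PairOn (n : ℕ) {M F : Type*} [TopologicalSpace M] [ChartedSpace (Fin n → ℂ) M]
    (φ : F → M) : Prop :=
  ∃ (ℓ : ℕ) (c c' : M → ℂ), 1 ≤ ℓ ∧ IsPluriForm n M ℓ c ∧ IsPluriForm n M ℓ c' ∧
    ∀ α β : ℂ, (∀ x, α * c (φ x) + β * c' (φ x) = 0) → α = 0 ∧ β = 0

/-- The connected component through `(x₀, y₀)` of the covering of `F` obtained from `p : Y → M` by
pulling back with `φ : F → M` is compact. -/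
def CompactLift {Y M F : Type*} [TopologicalSpace Y] [TopologicalSpace F] (p : Y → M) (φ : F → M)
    (x₀ : F) (y₀ : Y) : Prop :=
  IsCompact (connectedComponentIn {z : F × Y | φ z.1 = p z.2} (x₀, y₀))

/-- The points of `Y` are separated by holomorphic functions on `Y` (for instance, `Y` is Stein). -/
def HolSeparable (n : ℕ) (Y : Type*) [TopologicalSpace Y] [ChartedSpace (Fin n → ℂ) Y] : Prop :=
  ∀ y y' : Y, y ≠ y' → ∃ f : Y → ℂ, MDifferentiable 𝓘(ℂ, Fin n → ℂ) 𝓘(ℂ, ℂ) f ∧ f y ≠ f y'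

end Pool.Agent.Helper96.Kod
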