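import Pool.Agent.Helper96.Kod.Defs3

/-! Finite components, manifolds without compact submanifolds or without holomorphic functions. -/

open scoped Manifold ContDiff
open Pool.Agent.Helper16.Abund

namespace Pool.Agent.Helper96.Kod

universe u

/-- The connected component through `(x₀, y₀)` of the covering of `F` obtained from `p : Y → M` by
pulling back with `φ : F → M` is a finite covering: its fibres are finite. -/
def FiniteLift {Y M F : Type*} [TopologicalSpace Y] [TopologicalSpace F] (p : Y → M) (φ : F → M)
    (x₀ : F) (y₀ : Y) : Prop :=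
  ∀ x, {y | (x, y) ∈ connectedComponentIn {z : F × Y | φ z.1 = p z.2} (x₀, y₀)}.Finite

/-- Every holomorphic function on `F` is constant (for instance, `F` is compact and connected, or
the complement of an analytic subset of codimension at least two in such a manifold). -/
def OnlyConst (k : ℕ) (F : Type*) [TopologicalSpace F] [ChartedSpace (Fin k → ℂ) F] : Prop :=
  ∀ g : F → ℂ, MDifferentiable 𝓘(ℂ, Fin k → ℂ) 𝓘(ℂ, ℂ) g → ∀ x x', g x = g x'

/-- Every holomorphic map from a compact connected complex manifold to `Y` is constant (that is,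
`Y` has no compact analytic subset of positive dimension). -/
def NoCompactMaps (n : ℕ) (Y : Type u) [TopologicalSpace Y] [ChartedSpace (Fin n → ℂ) Y] : Prop :=
  ∀ (k : ℕ) (C : Type u) [TopologicalSpace C] [T2Space C] [CompactSpace C] [ConnectedSpace C]
    [ChartedSpace (Fin k → ℂ) C] [IsManifold 𝓘(ℂ, Fin k → ℂ) ω C] (ψ : C → Y), Holo n k ψ →
    ∀ c c', ψ c = ψ c'

/-- Every nonconstant holomorphic map from a compact connected complex manifold to `M` satisfies
`PairOn`: no compact analytic subset of positive dimension is contracted by the pluricanonical maps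
of `M`. -/
def ContractsNothing (n : ℕ) (M : Type u) [TopologicalSpace M] [ChartedSpace (Fin n → ℂ) M] :
    Prop :=
  ∀ (k : ℕ) (F : Type u) [TopologicalSpace F] [T2Space F] [CompactSpace F] [ConnectedSpace F]
    [ChartedSpace (Fin k → ℂ) F] [IsManifold 𝓘(ℂ, Fin k → ℂ) ω F] (φ : F → M), Holo n k φ →
    (∃ x x', φ x ≠ φ x') → PairOn n φ

/-- Some covering `p : Y → X` by a complex manifold `Y` without compact analytic subsets of positive
dimension carries an `m`-canonical form, `m ≥ 1`, in `L^q` over `X` for some `q > 0`, which is not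
zero at some point over `x`. -/
def RigidLqAt (n : ℕ) (X : Type u) [TopologicalSpace X] [ChartedSpace (Fin n → ℂ) X] (x : X) :
    Prop :=
  ∃ (Y : Type u) (_ : TopologicalSpace Y) (_ : ChartedSpace (Fin n → ℂ) Y)
    (_ : IsManifold 𝓘(ℂ, Fin n → ℂ) ω Y) (p : Y → X) (y : Y), HolCov n p ∧ NoCompactMaps n Y ∧
    LqFormAt n p y ∧ p y = x

end Pool.Agent.Helper96.Kod
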