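import Mathlib

/-! Packets for the Kodaira dimension theorem (Mathlib only). -/

open scoped Topology
open Filter

namespace Pool.Agent.Helper96.Kod

universe u v

/-- **K1**. Separation of the values of a family by its weighted power sums. -/
def StmtK1 : Prop :=
  ∀ (ι : Type u) (B e : ι → ℂ), (Summable fun s => ‖e s‖) → Tendsto B cofinite (𝓝 0) →
    (∀ l : ℕ, ∑' s, B s ^ l * e s = 0) → ∀ β : ℂ, β ≠ 0 → ∑ᶠ s ∈ {s | B s = β}, e s = 0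

/-- **K2**. Generic linear functionals. -/
def StmtK2 : Prop :=
  ∀ (N : ℕ) (W : Set (Fin N → ℂ)) (z : Fin N → ℂ), W.Countable → (0 : Fin N → ℂ) ∉ W →
    (∀ u : Fin N → ℂ, (∀ w ∈ W, ∑ i, u i * w i ≠ 0) → ∑ i, u i * z i = 0) → z = 0

/-- **K3**. Termwise differentiation. -/
def StmtK3 : Prop :=
  ∀ (E : Type u) [NormedAddCommGroup E] [NormedSpace ℂ E] (ι : Type v) (f : ι → E → ℂ) (u : ι → ℝ)
    (U : Set E), IsOpen U → (∀ i, DifferentiableOn ℂ (f i) U) → Summable u →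
    (∀ i, ∀ z ∈ U, ‖f i z‖ ≤ u i) → ∀ z ∈ U,
      (Summable fun i => ‖fderiv ℂ (f i) z‖) ∧
      HasFDerivAt (fun z => ∑' i, f i z) (∑' i, fderiv ℂ (f i) z) z

/-- **K5**. A generic point: near every point there is a point `x₁` at which `a s = ζ a s₀` with
`ζ^k = 1` only if this holds in a neighbourhood of `x₁`. -/
def StmtK5 : Prop :=
  ∀ (E : Type u) [TopologicalSpace E] (N : ℕ) (ι : Type v) (a : ι → E → Fin N → ℂ) (u : ι → ℝ)
    (U : Set E) (k : ℕ) (s₀ : ι) (x₀ : E), 1 ≤ k → IsOpen U → x₀ ∈ U →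
    (∀ s, ContinuousOn (a s) U) → Summable u → (∀ s, ∀ x ∈ U, ‖a s x‖ ^ k ≤ u s) → a s₀ x₀ ≠ 0 →
    ∃ x₁ ∈ U, a s₀ x₁ ≠ 0 ∧ ∀ s, ∀ ζ : ℂ, ζ ^ k = 1 → a s x₁ = ζ • a s₀ x₁ →
      ∀ᶠ x in 𝓝 x₁, a s x = ζ • a s₀ x

/-- **K6**. Linear algebra. -/
def StmtK6 : Prop :=
  ∀ (V : Type u) [AddCommGroup V] [Module ℂ V] [FiniteDimensional ℂ V] (r : ℕ) (I : Type v)
    (f : I → V →ₗ[ℂ] ℂ) (A : V →ₗ[ℂ] (Fin r → ℂ)), Function.Surjective A →
    (∀ v, (∀ i, f i v = 0) → A v = 0) →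
    ∃ i : Fin r → I, Function.Surjective fun v (j : Fin r) => f (i j) v

end Pool.Agent.Helper96.Kod
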