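import Pool.Agent.Helper96.Kod.LocData

/-! Topology of the fibre product `F ×_M Y`. -/

open scoped Manifold ContDiff ENNReal Topology
open MeasureTheory Metric Filter
open Pool.Agent.Helper16.Abund

namespace Pool.Agent.Helper96.Kod

section

variable {n k : ℕ} {M Y F : Type*} [TopologicalSpace M] [ChartedSpace (Fin n → ℂ) M]
    [TopologicalSpace Y] [ChartedSpace (Fin n → ℂ) Y] [TopologicalSpace F]
    [ChartedSpace (Fin k → ℂ) F] {p : Y → M} {φ : F → M} {x₁ : F} {N : Set (Fin k → ℂ)}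
    {J : (Fin k → ℂ) → ℂ} {ς : (p ⁻¹' {φ x₁}) → (Fin k → ℂ) → Y}

/-- The fibre product. -/
abbrev FP (φ : F → M) (p : Y → M) : Type _ := ↥{z : F × Y | φ z.1 = p z.2}

/-- The sheet `s` in the fibre product. -/
def shS (x₁ : F) (N : Set (Fin k → ℂ)) (ς : (p ⁻¹' {φ x₁}) → (Fin k → ℂ) → Y)
    (s : p ⁻¹' {φ x₁}) : Set (FP φ p) :=
  {z | z.1.1 ∈ (chartAt (Fin k → ℂ) x₁).source ∧ chartAt (Fin k → ℂ) x₁ z.1.1 ∈ N ∧
    z.1.2 = ς s (chartAt (Fin k → ℂ) x₁ z.1.1)}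

/-- The base of the sheets. -/
def bS (x₁ : F) (N : Set (Fin k → ℂ)) : Set F :=
  {x | x ∈ (chartAt (Fin k → ℂ) x₁).source ∧ chartAt (Fin k → ℂ) x₁ x ∈ N}

theorem LocData.isOpen_bS (L : LocData n k p φ x₁ N J ς) : IsOpen (bS x₁ N) :=
  (chartAt (Fin k → ℂ) x₁).isOpen_inter_preimage L.isOpen

theorem LocData.mem_bS (L : LocData n k p φ x₁ N J ς) : x₁ ∈ bS x₁ N :=
  ⟨mem_chart_source _ x₁, L.mem⟩

theorem LocData.symm_mem_bS (L : LocData n k p φ x₁ N J ς) {v : Fin k → ℂ} (hv : v ∈ N) :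
    (chartAt (Fin k → ℂ) x₁).symm v ∈ bS x₁ N := by
  refine ⟨(chartAt (Fin k → ℂ) x₁).map_target (L.sub hv), ?_⟩
  rw [(chartAt (Fin k → ℂ) x₁).right_inv (L.sub hv)]
  exact hv

/-- The parametrization of the sheet `s`. -/
noncomputable def LocData.par (L : LocData n k p φ x₁ N J ς) (s : p ⁻¹' {φ x₁}) (v : N) : FP φ p :=
  ⟨((chartAt (Fin k → ℂ) x₁).symm v, ς s v), (L.sect s v v.2).symm⟩

theorem LocData.continuous_par (L : LocData n k p φ x₁ N J ς) (s : p ⁻¹' {φ x₁}) :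
    Continuous (L.par s) := by
  refine Continuous.subtype_mk ?_ _
  refine Continuous.prodMk ?_ ?_
  · exact ((chartAt (Fin k → ℂ) x₁).continuousOn_symm.mono L.sub).comp_continuous
      continuous_subtype_val fun v => v.2
  · exact (L.cont s).comp_continuous continuous_subtype_val fun v => v.2

theorem LocData.range_par (L : LocData n k p φ x₁ N J ς) (s : p ⁻¹' {φ x₁}) :
    Set.range (L.par s) = shS x₁ N ς s := by
  ext z
  constructor
  · rintro ⟨v, rfl⟩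
    refine ⟨(L.symm_mem_bS v.2).1, (L.symm_mem_bS v.2).2, ?_⟩
    simp only [LocData.par]
    rw [(chartAt (Fin k → ℂ) x₁).right_inv (L.sub v.2)]
  · rintro ⟨h1, h2, h3⟩
    refine ⟨⟨chartAt (Fin k → ℂ) x₁ z.1.1, h2⟩, ?_⟩
    apply Subtype.ext
    apply Prod.ext
    · exact (chartAt (Fin k → ℂ) x₁).left_inv h1
    · exact h3.symm

theorem LocData.par_mem (L : LocData n k p φ x₁ N J ς) (s : p ⁻¹' {φ x₁}) (v : N) :
    L.par s v ∈ shS x₁ N ς s := by
  rw [← L.range_par s]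
  exact ⟨v, rfl⟩

theorem LocData.isPreconnected_shS (L : LocData n k p φ x₁ N J ς) (s : p ⁻¹' {φ x₁}) :
    IsPreconnected (shS x₁ N ς s) := by
  rw [← L.range_par s]
  have : PreconnectedSpace N := isPreconnected_iff_preconnectedSpace.1 L.convex.isPreconnected
  exact isPreconnected_range (L.continuous_par s)

theorem LocData.isOpen_shS (L : LocData n k p φ x₁ N J ς) (hp : IsLocalHomeomorph p)
    (s : p ⁻¹' {φ x₁}) : IsOpen (shS x₁ N ς s) := by
  rw [isOpen_iff_mem_nhds]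
  rintro z ⟨h1, h2, h3⟩
  obtain ⟨e, he, hpe⟩ := hp z.1.2
  have hc1 : ContinuousAt (fun w : FP φ p => w.1.1) z :=
    (continuous_fst.comp continuous_subtype_val).continuousAt
  have hc2 : ContinuousAt (fun w : FP φ p => w.1.2) z :=
    (continuous_snd.comp continuous_subtype_val).continuousAt
  have hc3 : ContinuousAt (fun w : FP φ p => chartAt (Fin k → ℂ) x₁ w.1.1) z :=
    ContinuousAt.comp (f := fun w : FP φ p => w.1.1)
      ((chartAt (Fin k → ℂ) x₁).continuousAt h1) hc1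
  have hc4 : ContinuousAt (fun w : FP φ p => ς s (chartAt (Fin k → ℂ) x₁ w.1.1)) z :=
    ContinuousAt.comp (f := fun w : FP φ p => chartAt (Fin k → ℂ) x₁ w.1.1)
      ((L.cont s).continuousAt (L.isOpen.mem_nhds h2)) hc3
  have e1 : ∀ᶠ w : FP φ p in 𝓝 z, w.1.1 ∈ (chartAt (Fin k → ℂ) x₁).source :=
    hc1.preimage_mem_nhds ((chartAt (Fin k → ℂ) x₁).open_source.mem_nhds h1)
  have e2 : ∀ᶠ w : FP φ p in 𝓝 z, chartAt (Fin k → ℂ) x₁ w.1.1 ∈ N :=
    hc3.preimage_mem_nhds (L.isOpen.mem_nhds h2)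
  have e3 : ∀ᶠ w : FP φ p in 𝓝 z, w.1.2 ∈ e.source :=
    hc2.preimage_mem_nhds (e.open_source.mem_nhds he)
  have e4 : ∀ᶠ w : FP φ p in 𝓝 z, ς s (chartAt (Fin k → ℂ) x₁ w.1.1) ∈ e.source := by
    apply hc4.preimage_mem_nhds
    apply e.open_source.mem_nhds
    rw [← h3]
    exact he
  filter_upwards [e1, e2, e3, e4] with w w1 w2 w3 w4
  refine ⟨w1, w2, ?_⟩
  apply e.injOn w3 w4
  rw [← hpe, L.sect s _ w2, (chartAt (Fin k → ℂ) x₁).left_inv w1]
  exact w.2.symm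

theorem LocData.exists_sheet (L : LocData n k p φ x₁ N J ς) {z : FP φ p}
    (hz : z.1.1 ∈ bS x₁ N) : ∃ s, z ∈ shS x₁ N ς s := by
  obtain ⟨s, hs, -⟩ := L.uniq _ hz.2 z.1.2 (by
    rw [(chartAt (Fin k → ℂ) x₁).left_inv hz.1]
    exact z.2.symm)
  exact ⟨s, hz.1, hz.2, hs.symm⟩

/-- the sheets are injective -/
theorem LocData.injective (L : LocData n k p φ x₁ N J ς) {v : Fin k → ℂ} (hv : v ∈ N)
    {s t : p ⁻¹' {φ x₁}} (h : ς s v = ς t v) : s = t := by
  obtain ⟨r, -, hr⟩ := L.uniq v hv (ς s v) (L.sect s v hv)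
  rw [hr s rfl, hr t h.symm]

/-- A sheet meeting a connected component is contained in it. -/
theorem LocData.shS_subset (L : LocData n k p φ x₁ N J ς) {s : p ⁻¹' {φ x₁}} {z z₀ : FP φ p}
    (hz : z ∈ shS x₁ N ς s) (hz' : z ∈ connectedComponent z₀) :
    shS x₁ N ς s ⊆ connectedComponent z₀ := by
  rw [connectedComponent_eq hz']
  exact (L.isPreconnected_shS s).subset_connectedComponent hz

end

section

variable {n k : ℕ} {M Y F : Type*} [TopologicalSpace M] [ChartedSpace (Fin n → ℂ) M]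
    [IsManifold 𝓘(ℂ, Fin n → ℂ) ω M] [TopologicalSpace Y] [ChartedSpace (Fin n → ℂ) Y]
    [TopologicalSpace F] [ChartedSpace (Fin k → ℂ) F] [IsManifold 𝓘(ℂ, Fin k → ℂ) ω F]
    {p : Y → M} {φ : F → M}

/-- A set `S` in the fibre product, such that every sheet meeting it is contained in it, is a union
of connected components. -/
theorem isClopen_of_sheets (hcov : IsCoveringMap p)
    (hloc : IsLocalDiffeomorph 𝓘(ℂ, Fin n → ℂ) 𝓘(ℂ, Fin n → ℂ) ω p)
    (hφ : MDifferentiable 𝓘(ℂ, Fin k → ℂ) 𝓘(ℂ, Fin n → ℂ) φ) {S : Set (FP φ p)}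
    (hS : ∀ (x₁ : F) (N : Set (Fin k → ℂ)) (J : (Fin k → ℂ) → ℂ)
      (ς : (p ⁻¹' {φ x₁}) → (Fin k → ℂ) → Y), LocData n k p φ x₁ N J ς → ∀ s, ∀ z ∈ shS x₁ N ς s,
      z ∈ S → shS x₁ N ς s ⊆ S) : IsClopen S := by
  have key : ∀ z : FP φ p, ∃ (N : Set (Fin k → ℂ)) (J : (Fin k → ℂ) → ℂ)
      (ς : (p ⁻¹' {φ z.1.1}) → (Fin k → ℂ) → Y) (s : p ⁻¹' {φ z.1.1}),
      LocData n k p φ z.1.1 N J ς ∧ z ∈ shS z.1.1 N ς s ∧ IsOpen (shS z.1.1 N ς s) := by
    intro z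
    obtain ⟨N, J, ς, L⟩ := exists_locData (k := k) hcov hloc hφ z.1.1
    obtain ⟨s, hs⟩ := L.exists_sheet L.mem_bS
    exact ⟨N, J, ς, s, L, hs, L.isOpen_shS hcov.isLocalHomeomorph s⟩
  constructor
  · rw [← closure_subset_iff_isClosed]
    intro z hz
    obtain ⟨N, J, ς, s, L, hs, ho⟩ := key z
    obtain ⟨w, hw1, hw2⟩ := mem_closure_iff.1 hz _ ho hs
    exact hS _ N J ς L s w hw1 hw2 hs
  · rw [isOpen_iff_mem_nhds]
    intro z hz
    obtain ⟨N, J, ς, s, L, hs, ho⟩ := key z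
    exact Filter.mem_of_superset (ho.mem_nhds hs) (hS _ N J ς L s z hs hz)

/-- The projection of a connected component to `F` is onto. -/
theorem surj_fst [PreconnectedSpace F] (hcov : IsCoveringMap p)
    (hloc : IsLocalDiffeomorph 𝓘(ℂ, Fin n → ℂ) 𝓘(ℂ, Fin n → ℂ) ω p)
    (hφ : MDifferentiable 𝓘(ℂ, Fin k → ℂ) 𝓘(ℂ, Fin n → ℂ) φ) (z₀ : FP φ p) (x : F) :
    ∃ z ∈ connectedComponent z₀, z.1.1 = x := by
  set R : Set F := {x | ∃ z ∈ connectedComponent z₀, z.1.1 = x} with hR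
  have hcl : IsClopen R := by
    constructor
    · rw [← closure_subset_iff_isClosed]
      intro x₁ hx₁
      obtain ⟨N, J, ς, L⟩ := exists_locData (k := k) hcov hloc hφ x₁
      obtain ⟨x', hx'1, z', hz', hx'2⟩ := mem_closure_iff.1 hx₁ _ L.isOpen_bS L.mem_bS
      obtain ⟨s, hs⟩ := L.exists_sheet (z := z') (by rw [hx'2]; exact hx'1)
      refine ⟨L.par s ⟨_, L.mem⟩, L.shS_subset hs hz' (L.par_mem s _), ?_⟩
      exact (chartAt (Fin k → ℂ) x₁).left_inv (mem_chart_source _ x₁)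
    · rw [isOpen_iff_mem_nhds]
      rintro x₁ ⟨z₁, hz₁, rfl⟩
      obtain ⟨N, J, ς, L⟩ := exists_locData (k := k) hcov hloc hφ z₁.1.1
      obtain ⟨s, hs⟩ := L.exists_sheet (z := z₁) L.mem_bS
      refine Filter.mem_of_superset (L.isOpen_bS.mem_nhds L.mem_bS) ?_
      rintro x ⟨h1, h2⟩
      refine ⟨L.par s ⟨_, h2⟩, L.shS_subset hs hz₁ (L.par_mem s _), ?_⟩
      exact (chartAt (Fin k → ℂ) z₁.1.1).left_inv h1
  have hne : z₀.1.1 ∈ R := ⟨z₀, mem_connectedComponent, rfl⟩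
  have huniv : R = Set.univ := by
    rcases isClopen_iff.1 hcl with h | h
    · rw [h] at hne
      exact absurd hne (Set.notMem_empty _)
    · exact h
  have : x ∈ R := by rw [huniv]; trivial
  exact this

/-- Criterion for compactness of the connected component. -/
theorem isCompact_component [CompactSpace F] (hcov : IsCoveringMap p)
    (hloc : IsLocalDiffeomorph 𝓘(ℂ, Fin n → ℂ) 𝓘(ℂ, Fin n → ℂ) ω p)
    (hφ : MDifferentiable 𝓘(ℂ, Fin k → ℂ) 𝓘(ℂ, Fin n → ℂ) φ) (z₀ : FP φ p)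
    (hfin : ∀ (x₁ : F) (N : Set (Fin k → ℂ)) (J : (Fin k → ℂ) → ℂ)
      (ς : (p ⁻¹' {φ x₁}) → (Fin k → ℂ) → Y), LocData n k p φ x₁ N J ς →
      {s | shS x₁ N ς s ⊆ connectedComponent z₀}.Finite) :
    IsCompact (connectedComponent z₀) := by
  classical
  have key : ∀ x₁ : F, ∃ (V : Set F) (Q : Set (FP φ p)), IsOpen V ∧ x₁ ∈ V ∧ IsCompact Q ∧
      Q ⊆ connectedComponent z₀ ∧ ∀ z ∈ connectedComponent z₀, z.1.1 ∈ V → z ∈ Q := by
    intro x₁
    obtain ⟨N, J, ς, L⟩ := exists_locData (k := k) hcov hloc hφ x₁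
    obtain ⟨K, hK, hmemK, hKN⟩ := exists_compact_subset L.isOpen L.mem
    refine ⟨(chartAt (Fin k → ℂ) x₁).source ∩ chartAt (Fin k → ℂ) x₁ ⁻¹' interior K,
      ⋃ s ∈ {s | shS x₁ N ς s ⊆ connectedComponent z₀}, L.par s '' (Subtype.val ⁻¹' K),
      (chartAt (Fin k → ℂ) x₁).isOpen_inter_preimage isOpen_interior,
      ⟨mem_chart_source _ x₁, hmemK⟩, ?_, ?_, ?_⟩
    · refine (hfin x₁ N J ς L).isCompact_biUnion fun s _ => ?_
      refine IsCompact.image ?_ (L.continuous_par s)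
      rw [Topology.IsInducing.subtypeVal.isCompact_iff, Subtype.image_preimage_coe,
        Set.inter_eq_self_of_subset_right hKN]
      exact hK
    · intro z hz
      simp only [Set.mem_iUnion] at hz
      obtain ⟨s, hs, v, hv, rfl⟩ := hz
      exact hs (L.par_mem s v)
    · intro z hz hzV
      obtain ⟨s, hs⟩ := L.exists_sheet (z := z) ⟨hzV.1, hKN (interior_subset hzV.2)⟩
      simp only [Set.mem_iUnion]
      refine ⟨s, L.shS_subset hs hz, ?_⟩
      have h1 := hs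
      rw [← L.range_par s] at h1
      obtain ⟨v, rfl⟩ := h1
      refine ⟨v, ?_, rfl⟩
      have h2 : chartAt (Fin k → ℂ) x₁ (L.par s v).1.1 ∈ K := interior_subset hzV.2
      have h3 : chartAt (Fin k → ℂ) x₁ (L.par s v).1.1 = v :=
        (chartAt (Fin k → ℂ) x₁).right_inv (L.sub v.2)
      rw [h3] at h2
      exact h2
  choose V Q hV hxV hQ hQs hsub using key
  obtain ⟨t, ht⟩ := isCompact_univ.elim_finite_subcover V hV
    (fun x _ => Set.mem_iUnion.2 ⟨x, hxV x⟩)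
  have heq : connectedComponent z₀ = ⋃ x ∈ t, Q x := by
    apply Set.Subset.antisymm
    · intro z hz
      have h1 := ht (Set.mem_univ z.1.1)
      simp only [Set.mem_iUnion] at h1 ⊢
      obtain ⟨x, hx, hzx⟩ := h1
      exact ⟨x, hx, hsub x z hz hzx⟩
    · exact Set.iUnion₂_subset fun x _ => hQs x
  rw [heq]
  exact t.isCompact_biUnion fun x _ => hQ x

end

end Pool.Agent.Helper96.Kod
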