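import Pool.Agent.Helper96.Kod.Iit1
import Pool.Agent.Helper8.Abund.TwoForms

/-! The power sums of the branches over a compact manifold. -/

open scoped Manifold ContDiff ENNReal Topology
open MeasureTheory Metric Filter
open Pool.Agent.Helper16.Abund

namespace Pool.Agent.Helper96.Kod

universe u

/-- Two summable families with the same power sums have the same nonzero values. -/
theorem same_values {ι ι' : Type u} {b : ι → ℂ} {b' : ι' → ℂ} (hb : Summable fun s => ‖b s‖)
    (hb' : Summable fun s => ‖b' s‖) (h : ∀ j : ℕ, 1 ≤ j → ∑' s, b s ^ j = ∑' s, b' s ^ j)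
    {s₀ : ι} (hs₀ : b s₀ ≠ 0) : ∃ s', b' s' = b s₀ := by
  classical
  by_contra hne
  push Not at hne
  set β := b s₀ with hβ
  set B : ι ⊕ ι' → ℂ := Sum.elim b b' with hB
  set e : ι ⊕ ι' → ℂ := Sum.elim b (fun s => -b' s) with he
  have hBn : Summable fun s => ‖B s‖ := by
    have h1 : Summable ((fun s => ‖B s‖) ∘ Sum.inl) := by simpa [Function.comp_def, hB] using hb
    have h2 : Summable ((fun s => ‖B s‖) ∘ Sum.inr) := by simpa [Function.comp_def, hB] using hb'
    exact h1.sum _ h2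
  have hen : Summable fun s => ‖e s‖ := by
    refine hBn.congr fun s => ?_
    rcases s with s | s <;> simp [hB, he]
  have hB0 : Tendsto B cofinite (𝓝 0) := hBn.of_norm.tendsto_cofinite_zero
  have hpow : ∀ {κ : Type u} {c : κ → ℂ}, (Summable fun s => ‖c s‖) → ∀ l : ℕ,
      Summable fun s => c s ^ (l + 1) := by
    intro κ c hc l
    have h1 := summable_pow_of_rpow (a := c) (q := 1) (by simpa using hc) one_pos
      (k := l + 1) (by push_cast; linarith [(Nat.cast_nonneg l : (0 : ℝ) ≤ l)])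
    exact h1.of_norm
  have hz : ∀ l : ℕ, ∑' s, B s ^ l * e s = 0 := by
    intro l
    have h1 : HasSum ((fun s => B s ^ l * e s) ∘ Sum.inl) (∑' s, b s ^ (l + 1)) := by
      have := (hpow hb l).hasSum
      refine this.congr_fun ?_
      intro s
      simp [hB, he, pow_succ]
    have h2 : HasSum ((fun s => B s ^ l * e s) ∘ Sum.inr) (-∑' s, b' s ^ (l + 1)) := by
      have := (hpow hb' l).hasSum.neg
      refine this.congr_fun ?_
      intro s
      simp [hB, he, pow_succ]
    rw [(h1.sum h2).tsum_eq, h (l + 1) (by omega), add_neg_cancel]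
  have hfs := Helper22.Kod.stmtK1 (ι ⊕ ι') B e hen hB0 hz β hs₀
  have hfin : {s | B s = β}.Finite := by
    have h1 : ∀ᶠ s in cofinite, B s ≠ β := hB0.eventually_ne (Ne.symm hs₀)
    simpa [Filter.eventually_cofinite] using h1
  rw [finsum_mem_eq_finite_toFinset_sum _ hfin] at hfs
  have h2 : ∑ s ∈ hfin.toFinset, e s = ∑ s ∈ hfin.toFinset, β := by
    refine Finset.sum_congr rfl fun s hs => ?_
    simp only [Set.Finite.mem_toFinset, Set.mem_ofPred_eq] at hs
    rcases s with s | s
    · simpa [hB, he] using hs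
    · exact absurd (by simpa [hB] using hs) (hne s)
  rw [h2, Finset.sum_const, nsmul_eq_mul, mul_eq_zero] at hfs
  rcases hfs with h3 | h3
  · have h4 : hfin.toFinset.card = 0 := by exact_mod_cast h3
    rw [Finset.card_eq_zero] at h4
    have h5 : Sum.inl s₀ ∈ hfin.toFinset := by simp [hB, hβ]
    rw [h4] at h5
    exact absurd h5 (Finset.notMem_empty _)
  · exact hs₀ h3

/-- In a family tending to zero the nonzero values are isolated. -/
theorem isolated_value {ι : Type*} {b : ι → ℂ} (hb : Tendsto b cofinite (𝓝 0)) {β : ℂ}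
    (hβ : β ≠ 0) : ∀ᶠ w in 𝓝 β, ∀ s, b s = w → w = β := by
  classical
  have hpos : 0 < ‖β‖ := norm_pos_iff.2 hβ
  have hfin : {s | ‖β‖ / 2 ≤ ‖b s‖}.Finite := by
    have h1 : ∀ᶠ s in cofinite, ‖b s‖ < ‖β‖ / 2 := by
      have h2 := hb.norm
      rw [norm_zero] at h2
      exact h2.eventually (gt_mem_nhds (by positivity))
    simpa [Filter.eventually_cofinite] using h1
  have hfin2 : (b '' {s | ‖β‖ / 2 ≤ ‖b s‖} \ {β}).Finite := (hfin.image b).subset Set.sdiff_subset
  have h3 : ∀ᶠ w in 𝓝 β, w ∉ b '' {s | ‖β‖ / 2 ≤ ‖b s‖} \ {β} :=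
    hfin2.isClosed.isOpen_compl.mem_nhds fun h => h.2 rfl
  have h4 : ∀ᶠ w : ℂ in 𝓝 β, ‖β‖ / 2 < ‖w‖ :=
    continuous_norm.continuousAt.eventually (lt_mem_nhds (by linarith))
  filter_upwards [h3, h4] with w hw1 hw2 s hs
  by_contra hne
  exact hw1 ⟨⟨s, by rw [Set.mem_ofPred_eq, hs]; exact hw2.le, hs⟩, hne⟩

end Pool.Agent.Helper96.Kod
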