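import Pool.Agent.Helper96.Kod.Iit2
import Pool.Agent.Helper96.Kod.Defs3

/-! Pluricanonical forms restricted to compact manifolds. -/

open scoped Manifold ContDiff ENNReal Topology
open MeasureTheory Metric Filter
open Pool.Agent.Helper16.Abund

namespace Pool.Agent.Helper96.Kod

universe u v w

section

variable {n k : ℕ} {M : Type v} {Y : Type u} {F : Type w} [TopologicalSpace M]
    [ChartedSpace (Fin n → ℂ) M] [IsManifold 𝓘(ℂ, Fin n → ℂ) ω M] [TopologicalSpace Y]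
    [ChartedSpace (Fin n → ℂ) Y] [TopologicalSpace F] [ChartedSpace (Fin k → ℂ) F]
    [IsManifold 𝓘(ℂ, Fin k → ℂ) ω F] {p : Y → M} {φ : F → M}

/-- Identity theorem for pluricanonical forms restricted to a connected manifold. -/
theorem exists_ne_zero [PreconnectedSpace F] (hcov : IsCoveringMap p)
    (hloc : IsLocalDiffeomorph 𝓘(ℂ, Fin n → ℂ) 𝓘(ℂ, Fin n → ℂ) ω p)
    (hφ : MDifferentiable 𝓘(ℂ, Fin k → ℂ) 𝓘(ℂ, Fin n → ℂ) φ) {ℓ : ℕ} {c : M → ℂ}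
    (hc : IsPluriForm n M ℓ c) {x₀ : F} (h0 : c (φ x₀) ≠ 0) {x₁ : F} {N : Set (Fin k → ℂ)}
    {J : (Fin k → ℂ) → ℂ} {ς : (p ⁻¹' {φ x₁}) → (Fin k → ℂ) → Y}
    (L : LocData n k p φ x₁ N J ς) :
    ∃ v ∈ N, c (φ ((chartAt (Fin k → ℂ) x₁).symm v)) ≠ 0 := by
  set Z : Set F := {x | ∀ᶠ x' in 𝓝 x, c (φ x') = 0} with hZ
  have hbS : ∀ {x₁ : F} {N : Set (Fin k → ℂ)} {J : (Fin k → ℂ) → ℂ}
      {ς : (p ⁻¹' {φ x₁}) → (Fin k → ℂ) → Y}, LocData n k p φ x₁ N J ς →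
      (∀ v ∈ N, c (φ ((chartAt (Fin k → ℂ) x₁).symm v)) = 0) → x₁ ∈ Z := by
    intro x₁ N J ς L h
    refine Filter.mem_of_superset (L.isOpen_bS.mem_nhds L.mem_bS) ?_
    intro x hx
    have := h _ hx.2
    rwa [(chartAt (Fin k → ℂ) x₁).left_inv hx.1] at this
  have hcl : IsClopen Z := by
    refine ⟨?_, isOpen_setOfPred_eventually_nhds⟩
    rw [← closure_subset_iff_isClosed]
    intro x₁ hx₁
    obtain ⟨N, J, ς, L⟩ := exists_locData (k := k) hcov hloc hφ x₁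
    obtain ⟨x', hx'1, hx'2⟩ := mem_closure_iff.1 hx₁ _ L.isOpen_bS L.mem_bS
    apply hbS L
    have hcs : ContinuousAt (chartAt (Fin k → ℂ) x₁).symm (chartAt (Fin k → ℂ) x₁ x') :=
      (chartAt (Fin k → ℂ) x₁).continuousAt_symm (L.sub hx'1.2)
    have h1 : ∀ᶠ v in 𝓝 (chartAt (Fin k → ℂ) x₁ x'),
        c (φ ((chartAt (Fin k → ℂ) x₁).symm v)) = 0 := by
      have h3 : ∀ᶠ x in 𝓝 ((chartAt (Fin k → ℂ) x₁).symm (chartAt (Fin k → ℂ) x₁ x')),
          c (φ x) = 0 := by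
        rw [(chartAt (Fin k → ℂ) x₁).left_inv hx'1.1]
        exact hx'2
      exact hcs.eventually h3
    have h2 := eqOn_zero_of_eventually L.isOpen L.convex (L.form ℓ c hc) hx'1.2 (by
      filter_upwards [h1] with v hv
      rw [hv, zero_mul])
    intro v hv
    exact (mul_eq_zero.1 (h2 v hv)).resolve_right (pow_ne_zero _ (L.J_ne v hv))
  by_contra hne
  push Not at hne
  have h1 : x₁ ∈ Z := hbS L hne
  have h2 : Z = Set.univ := by
    rcases isClopen_iff.1 hcl with h | h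
    · rw [h] at h1
      exact absurd h1 (Set.notMem_empty _)
    · exact h
  have h3 : x₀ ∈ Z := by rw [h2]; trivial
  have h4 : ∀ᶠ x' in 𝓝 x₀, c (φ x') = 0 := h3
  exact h0 h4.self_of_nhds

omit [IsManifold 𝓘(ℂ, Fin n → ℂ) ω M] [TopologicalSpace F] in
theorem prop_of_not_pairOn {φ : F → M} (h : ¬ PairOn n φ) {ℓ : ℕ} (hℓ : 1 ≤ ℓ) {c c' : M → ℂ}
    (hc : IsPluriForm n M ℓ c) (hc' : IsPluriForm n M ℓ c') {x₀ : F} (h0 : c (φ x₀) ≠ 0) :
    ∃ C : ℂ, ∀ x, c' (φ x) = C * c (φ x) := by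
  unfold PairOn at h
  push Not at h
  obtain ⟨α, β, h1, h2⟩ := h ℓ c c' hℓ hc hc'
  have hβ : β ≠ 0 := by
    intro hβ
    subst hβ
    have hα : α ≠ 0 := fun hα => h2 hα rfl
    have := h1 x₀
    rw [zero_mul, add_zero, mul_eq_zero] at this
    exact this.elim hα h0
  refine ⟨-α / β, fun x => ?_⟩
  have := h1 x
  field_simp
  linear_combination this

/-- **Finiteness of the component**: if all the pluricanonical forms of `M` are proportional on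
`F`. -/
theorem finite_sheets_of_not_pairOn [PreconnectedSpace F]
    (hcov : IsCoveringMap p)
    (hloc : IsLocalDiffeomorph 𝓘(ℂ, Fin n → ℂ) 𝓘(ℂ, Fin n → ℂ) ω p)
    (hφ : MDifferentiable 𝓘(ℂ, Fin k → ℂ) 𝓘(ℂ, Fin n → ℂ) φ) {m : ℕ} (hm : 1 ≤ m) {q : ℝ}
    (hq : 0 < q) {η : Y → ℂ} (hη : IsPluriForm n Y m η) (hLq : FibreLq n p m q η)
    {z₀ : FP φ p} (h0 : η z₀.1.2 ≠ 0) (hnp : ¬ PairOn n φ)
    {x₁ : F} {N : Set (Fin k → ℂ)} {J : (Fin k → ℂ) → ℂ}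
    {ς : (p ⁻¹' {φ x₁}) → (Fin k → ℂ) → Y} (L : LocData n k p φ x₁ N J ς) :
    {s | shS x₁ N ς s ⊆ connectedComponent z₀}.Finite := by
  classical
  set a : Y → ℂ := fun y => η y / jac n p y ^ m with ha
  have hsum : ∀ x : M, Summable fun y : p ⁻¹' {x} => ‖a y‖ ^ q := fun x =>
    summable_fibre_rpow hcov hloc hη hq hLq x
  -- Step 1
  have hx₀ : p z₀.1.2 = φ z₀.1.1 := z₀.2.symm
  obtain ⟨K, hK, hKb⟩ := exists_powerSum (a := fun y' : p ⁻¹' {φ z₀.1.1} => a y')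
    hq (hsum _) ⟨z₀.1.2, hx₀⟩ (⌈q⌉₊ + 1)
  have hqK : q ≤ K := by
    calc q ≤ (⌈q⌉₊ : ℝ) := Nat.le_ceil q
      _ ≤ ((⌈q⌉₊ + 1 : ℕ) : ℝ) := by push_cast; linarith
      _ ≤ K := by exact_mod_cast hK
  have hK1 : 1 ≤ K := by omega
  set σ : F → ℂ := fun x => trace n p m K η (φ x) with hσ
  have ha0 : a z₀.1.2 ≠ 0 := div_ne_zero h0 (pow_ne_zero _ (jac_ne_zero hloc _))
  have hσ0 : σ z₀.1.1 ≠ 0 := by
    have h1 : 0 < ‖a z₀.1.2‖ ^ K := pow_pos (norm_pos_iff.2 ha0) _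
    have h2 : ‖a z₀.1.2‖ ^ K ≤ 2 * ‖σ z₀.1.1‖ := hKb
    exact norm_pos_iff.1 (by linarith)
  have hτ : IsPluriForm n M (m * K) (trace n p m K η) :=
    isPluriForm_trace hcov hloc hη hq hLq hqK
  -- Step 2
  have hC : ∀ j : ℕ, 1 ≤ j → ∃ C : ℂ, ∀ x, trace n p m (K * j) η (φ x) = C * σ x ^ j := by
    intro j hj
    have hqKj : q ≤ ((K * j : ℕ) : ℝ) := by
      refine hqK.trans ?_
      exact_mod_cast Nat.le_mul_of_pos_right K hj
    have h1 : IsPluriForm n M (m * K * j) (fun y => trace n p m K η y ^ j) := hτ.pow j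
    have h2 : IsPluriForm n M (m * (K * j)) (trace n p m (K * j) η) :=
      isPluriForm_trace hcov hloc hη hq hLq hqKj
    rw [← mul_assoc] at h2
    exact prop_of_not_pairOn (x₀ := z₀.1.1) hnp (Nat.mul_pos (Nat.mul_pos hm hK1) hj) h1 h2
      (pow_ne_zero _ hσ0)
  -- Step 3: the values of `b = a ^ K / σ`
  have hbsum : ∀ x : F, Summable fun y : p ⁻¹' {φ x} => ‖a y ^ K / σ x‖ := by
    intro x
    have h1 := (summable_pow_of_rpow (hsum (φ x)) hq hqK).div_const ‖σ x‖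
    refine h1.congr fun y => ?_
    rw [norm_div]
  have hval : ∀ x x' : F, σ x ≠ 0 → σ x' ≠ 0 → ∀ y : p ⁻¹' {φ x}, a y ≠ 0 →
      ∃ y' : p ⁻¹' {φ x'}, a y' ^ K / σ x' = a y ^ K / σ x := by
    intro x x' hx hx' y hy
    refine same_values (b := fun y : p ⁻¹' {φ x} => a y ^ K / σ x)
      (b' := fun y : p ⁻¹' {φ x'} => a y ^ K / σ x') (hbsum x) (hbsum x') ?_
      (div_ne_zero (pow_ne_zero _ hy) hx)
    intro j hj
    obtain ⟨C, hCj⟩ := hC j hj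
    have h1 : ∀ x : F, σ x ≠ 0 → ∑' y : p ⁻¹' {φ x}, (a y ^ K / σ x) ^ j = C := by
      intro x hx
      have h2 : ∑' y : p ⁻¹' {φ x}, (a y ^ K / σ x) ^ j =
          (∑' y : p ⁻¹' {φ x}, a y ^ (K * j)) / σ x ^ j := by
        rw [← tsum_div_const]
        refine tsum_congr fun y => ?_
        rw [div_pow, pow_mul]
      rw [h2, eq_comm, eq_div_iff (pow_ne_zero _ hx)]
      exact (hCj x).symm
    rw [h1 x hx, h1 x' hx']
  -- Step 5
  set β : ℂ := a z₀.1.2 ^ K / σ z₀.1.1 with hβ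
  have hβ0 : β ≠ 0 := div_ne_zero (pow_ne_zero _ ha0) hσ0
  have hiso : ∀ᶠ w in 𝓝 β, ∀ y : p ⁻¹' {φ z₀.1.1}, a y ^ K / σ z₀.1.1 = w → w = β :=
    isolated_value (hbsum z₀.1.1).of_norm.tendsto_cofinite_zero hβ0
  let good : FP φ p → Prop := fun z => a z.1.2 ^ K = β * σ z.1.1
  let G : Set (FP φ p) := {z | ∀ᶠ w in 𝓝 z, good w}
  have hAd : ∀ {x₁ : F} {N : Set (Fin k → ℂ)} {J : (Fin k → ℂ) → ℂ}
      {ς : (p ⁻¹' {φ x₁}) → (Fin k → ℂ) → Y}, LocData n k p φ x₁ N J ς → ∀ s,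
      DifferentiableOn ℂ (fun v => (a (ς s v) * J v ^ m) ^ K) N := by
    intro x₁ N J ς L s
    exact (L.sheet m η hη s).pow K
  have hSd : ∀ {x₁ : F} {N : Set (Fin k → ℂ)} {J : (Fin k → ℂ) → ℂ}
      {ς : (p ⁻¹' {φ x₁}) → (Fin k → ℂ) → Y}, LocData n k p φ x₁ N J ς →
      DifferentiableOn ℂ (fun v => σ ((chartAt (Fin k → ℂ) x₁).symm v) * J v ^ (m * K)) N := by
    intro x₁ N J ς L
    exact L.form (m * K) _ hτ
  have hgood : ∀ {x₁ : F} {N : Set (Fin k → ℂ)} {J : (Fin k → ℂ) → ℂ}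
      {ς : (p ⁻¹' {φ x₁}) → (Fin k → ℂ) → Y} (L : LocData n k p φ x₁ N J ς), ∀ s (v : N),
      good (L.par s v) ↔ (a (ς s v) * J v ^ m) ^ K -
        β * (σ ((chartAt (Fin k → ℂ) x₁).symm v) * J v ^ (m * K)) = 0 := by
    intro x₁ N J ς L s v
    have hJ : J v ^ (m * K) ≠ 0 := pow_ne_zero _ (L.J_ne v v.2)
    have h1 : (a (ς s v) * J v ^ m) ^ K -
        β * (σ ((chartAt (Fin k → ℂ) x₁).symm v) * J v ^ (m * K)) =
        (a (ς s v) ^ K - β * σ ((chartAt (Fin k → ℂ) x₁).symm v)) * J v ^ (m * K) := by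
      rw [mul_pow, ← pow_mul]
      ring
    rw [h1, mul_eq_zero, or_iff_left hJ, sub_eq_zero]
    exact Iff.rfl
  have hGs : ∀ (x₁ : F) (N : Set (Fin k → ℂ)) (J : (Fin k → ℂ) → ℂ)
      (ς : (p ⁻¹' {φ x₁}) → (Fin k → ℂ) → Y), LocData n k p φ x₁ N J ς → ∀ s, ∀ z ∈ shS x₁ N ς s,
      z ∈ G → shS x₁ N ς s ⊆ G := by
    intro x₁ N J ς L s z hz hzG
    have hz' := hz
    rw [← L.range_par s] at hz'
    obtain ⟨v', rfl⟩ := hz'
    have h1 : ∀ᶠ v : N in 𝓝 v', good (L.par s v) :=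
      (L.continuous_par s).continuousAt.eventually hzG
    have h2 : ∀ᶠ v in 𝓝 (v' : Fin k → ℂ), (a (ς s v) * J v ^ m) ^ K -
        β * (σ ((chartAt (Fin k → ℂ) x₁).symm v) * J v ^ (m * K)) = 0 := by
      rw [← L.isOpen.isOpenEmbedding_subtypeVal.map_nhds_eq v', Filter.eventually_map]
      filter_upwards [h1] with v hv
      exact (hgood L s v).1 hv
    have h3 := eqOn_zero_of_eventually L.isOpen L.convex
      ((hAd L s).sub ((hSd L).const_mul β)) v'.2 h2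
    have h4 : ∀ w ∈ shS x₁ N ς s, good w := by
      intro w hw
      rw [← L.range_par s] at hw
      obtain ⟨v, rfl⟩ := hw
      exact (hgood L s v).2 (h3 v v.2)
    intro w hw
    exact Filter.mem_of_superset ((L.isOpen_shS hcov.isLocalHomeomorph s).mem_nhds hw) h4
  have hGcl : IsClopen G := isClopen_of_sheets hcov hloc hφ hGs
  have hz₀G : z₀ ∈ G := by
    obtain ⟨N, J, ς, L⟩ := exists_locData (k := k) hcov hloc hφ z₀.1.1
    obtain ⟨s, hs⟩ := L.exists_sheet (z := z₀) L.mem_bS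
    have hz' := hs
    rw [← L.range_par s] at hz'
    obtain ⟨v₀, hv₀⟩ := hz'
    have hsy : ς s v₀ = z₀.1.2 := by rw [← hv₀]; rfl
    have hsx : (chartAt (Fin k → ℂ) z₀.1.1).symm v₀ = z₀.1.1 := by
      have : (L.par s v₀).1.1 = z₀.1.1 := by rw [hv₀]
      exact this
    have hcA : ContinuousAt (fun v => (a (ς s v) * J v ^ m) ^ K) v₀ :=
      (hAd L s).continuousOn.continuousAt (L.isOpen.mem_nhds v₀.2)
    have hcS : ContinuousAt (fun v =>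
        σ ((chartAt (Fin k → ℂ) z₀.1.1).symm v) * J v ^ (m * K)) v₀ :=
      (hSd L).continuousOn.continuousAt (L.isOpen.mem_nhds v₀.2)
    have hJ₀ : J v₀ ^ (m * K) ≠ 0 := pow_ne_zero _ (L.J_ne _ v₀.2)
    have hS₀ : σ ((chartAt (Fin k → ℂ) z₀.1.1).symm v₀) * J v₀ ^ (m * K) ≠ 0 := by
      rw [hsx]
      exact mul_ne_zero hσ0 hJ₀
    have hratio : ∀ v ∈ N, (a (ς s v) * J v ^ m) ^ K /
        (σ ((chartAt (Fin k → ℂ) z₀.1.1).symm v) * J v ^ (m * K)) =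
        a (ς s v) ^ K / σ ((chartAt (Fin k → ℂ) z₀.1.1).symm v) := by
      intro v hv
      have hJ : J v ^ (m * K) ≠ 0 := pow_ne_zero _ (L.J_ne v hv)
      rw [mul_pow, ← pow_mul, mul_div_mul_right _ _ hJ]
    have hcR := hcA.div hcS hS₀
    have hR0 : (a (ς s v₀) * J v₀ ^ m) ^ K /
        (σ ((chartAt (Fin k → ℂ) z₀.1.1).symm v₀) * J v₀ ^ (m * K)) = β := by
      rw [hratio _ v₀.2, hsy, hsx]
    have hev1 : ∀ᶠ v in 𝓝 (v₀ : Fin k → ℂ), ∀ y : p ⁻¹' {φ z₀.1.1}, a y ^ K / σ z₀.1.1 =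
        (a (ς s v) * J v ^ m) ^ K /
        (σ ((chartAt (Fin k → ℂ) z₀.1.1).symm v) * J v ^ (m * K)) →
        (a (ς s v) * J v ^ m) ^ K /
        (σ ((chartAt (Fin k → ℂ) z₀.1.1).symm v) * J v ^ (m * K)) = β := by
      have h1 : Tendsto (fun v => (a (ς s v) * J v ^ m) ^ K /
        (σ ((chartAt (Fin k → ℂ) z₀.1.1).symm v) * J v ^ (m * K))) (𝓝 (v₀ : Fin k → ℂ)) (𝓝 β) := by
        have h2 := hcR.tendsto
        simp only [Pi.div_apply] at h2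
        rw [hR0] at h2
        exact h2
      exact h1.eventually hiso
    have hev2 : ∀ᶠ v in 𝓝 (v₀ : Fin k → ℂ), (a (ς s v) * J v ^ m) ^ K ≠ 0 := by
      apply hcA.eventually_ne
      apply pow_ne_zero
      rw [hsy]
      exact mul_ne_zero ha0 (pow_ne_zero _ (L.J_ne _ v₀.2))
    have hev3 : ∀ᶠ v in 𝓝 (v₀ : Fin k → ℂ),
        σ ((chartAt (Fin k → ℂ) z₀.1.1).symm v) * J v ^ (m * K) ≠ 0 := hcS.eventually_ne hS₀
    have hev : ∀ᶠ v in 𝓝 (v₀ : Fin k → ℂ), (a (ς s v) * J v ^ m) ^ K -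
        β * (σ ((chartAt (Fin k → ℂ) z₀.1.1).symm v) * J v ^ (m * K)) = 0 := by
      filter_upwards [hev1, hev2, hev3, L.isOpen.mem_nhds v₀.2] with v h1 h2 h3 hvN
      have hσv : σ ((chartAt (Fin k → ℂ) z₀.1.1).symm v) ≠ 0 := left_ne_zero_of_mul h3
      have hav : a (ς s v) ≠ 0 := by
        intro h
        apply h2
        rw [h, zero_mul, zero_pow (by omega)]
      obtain ⟨y', hy'⟩ := hval ((chartAt (Fin k → ℂ) z₀.1.1).symm v) z₀.1.1 hσv hσ0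
        ⟨ς s v, L.sect s v hvN⟩ hav
      have h4 := h1 y' (by rw [hy', hratio v hvN])
      rw [div_eq_iff h3] at h4
      rw [h4, sub_self]
    have h5 := eqOn_zero_of_eventually L.isOpen L.convex
      ((hAd L s).sub ((hSd L).const_mul β)) v₀.2 hev
    refine Filter.mem_of_superset ((L.isOpen_shS hcov.isLocalHomeomorph s).mem_nhds hs) ?_
    intro w hw
    rw [← L.range_par s] at hw
    obtain ⟨v, rfl⟩ := hw
    exact (hgood L s v).2 (h5 v v.2)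
  have hCG : ∀ z ∈ connectedComponent z₀, good z := by
    intro z hz
    have h1 : z ∈ G := hGcl.connectedComponent_subset hz₀G hz
    exact Filter.Eventually.self_of_nhds h1
  -- Step 7: finitely many sheets
  obtain ⟨v', hv', hσv'⟩ := exists_ne_zero hcov hloc hφ hτ hσ0 L
  set x' := (chartAt (Fin k → ℂ) x₁).symm v' with hx'
  have hne : β * σ x' ≠ 0 := mul_ne_zero hβ0 hσv'
  have hfin : {y : p ⁻¹' {φ x'} | a y ^ K = β * σ x'}.Finite := by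
    have h1 : Tendsto (fun y : p ⁻¹' {φ x'} => a y ^ K) cofinite (𝓝 0) :=
      (summable_pow_of_rpow (hsum (φ x')) hq hqK).of_norm.tendsto_cofinite_zero
    have h2 : ∀ᶠ y : p ⁻¹' {φ x'} in cofinite, a y ^ K ≠ β * σ x' := h1.eventually_ne hne.symm
    simpa [Filter.eventually_cofinite] using h2
  refine Set.Finite.of_finite_image (f := fun s => (⟨ς s v', L.sect s v' hv'⟩ : p ⁻¹' {φ x'}))
    (hfin.subset ?_) ?_
  · rintro y ⟨s, hs, rfl⟩
    exact hCG _ (hs (L.par_mem s ⟨v', hv'⟩))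
  · intro s _ t _ hst
    exact L.injective hv' (congrArg Subtype.val hst)

/-- Compactness of the component. -/
theorem isCompact_component_of_not_pairOn [CompactSpace F] [PreconnectedSpace F]
    (hcov : IsCoveringMap p)
    (hloc : IsLocalDiffeomorph 𝓘(ℂ, Fin n → ℂ) 𝓘(ℂ, Fin n → ℂ) ω p)
    (hφ : MDifferentiable 𝓘(ℂ, Fin k → ℂ) 𝓘(ℂ, Fin n → ℂ) φ) {m : ℕ} (hm : 1 ≤ m) {q : ℝ}
    (hq : 0 < q) {η : Y → ℂ} (hη : IsPluriForm n Y m η) (hLq : FibreLq n p m q η)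
    {z₀ : FP φ p} (h0 : η z₀.1.2 ≠ 0) (hnp : ¬ PairOn n φ) :
    IsCompact (connectedComponent z₀) :=
  isCompact_component hcov hloc hφ z₀ fun _ _ _ _ L =>
    finite_sheets_of_not_pairOn hcov hloc hφ hm hq hη hLq h0 hnp L

/-- The fibres of the component are finite. -/
theorem finite_fibre_of_not_pairOn [PreconnectedSpace F]
    (hcov : IsCoveringMap p)
    (hloc : IsLocalDiffeomorph 𝓘(ℂ, Fin n → ℂ) 𝓘(ℂ, Fin n → ℂ) ω p)
    (hφ : MDifferentiable 𝓘(ℂ, Fin k → ℂ) 𝓘(ℂ, Fin n → ℂ) φ) {m : ℕ} (hm : 1 ≤ m) {q : ℝ}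
    (hq : 0 < q) {η : Y → ℂ} (hη : IsPluriForm n Y m η) (hLq : FibreLq n p m q η)
    {z₀ : FP φ p} (h0 : η z₀.1.2 ≠ 0) (hnp : ¬ PairOn n φ) (x : F) :
    {z : FP φ p | z ∈ connectedComponent z₀ ∧ z.1.1 = x}.Finite := by
  obtain ⟨N, J, ς, L⟩ := exists_locData (k := k) hcov hloc hφ x
  have hfin := finite_sheets_of_not_pairOn hcov hloc hφ hm hq hη hLq h0 hnp L
  refine (hfin.image fun s => L.par s ⟨_, L.mem⟩).subset ?_
  rintro z ⟨hz, rfl⟩
  obtain ⟨s, hs⟩ := L.exists_sheet (z := z) L.mem_bS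
  refine ⟨s, L.shS_subset hs hz, ?_⟩
  apply Subtype.ext
  apply Prod.ext
  · exact (chartAt (Fin k → ℂ) z.1.1).left_inv (mem_chart_source _ _)
  · exact hs.2.2.symm

end

end Pool.Agent.Helper96.Kod
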