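import Pool.Agent.Helper96.Kod.Iit3

/-! Holomorphic functions on a compact component of the fibre product. -/

open scoped Manifold ContDiff ENNReal Topology
open MeasureTheory Metric Filter
open Pool.Agent.Helper16.Abund

namespace Pool.Agent.Helper96.Kod

universe u v w

section

variable {n k : ℕ} {M : Type v} {Y : Type u} {F : Type w} [TopologicalSpace M]
    [ChartedSpace (Fin n → ℂ) M] [IsManifold 𝓘(ℂ, Fin n → ℂ) ω M] [TopologicalSpace Y]
    [ChartedSpace (Fin n → ℂ) Y] [TopologicalSpace F] [ChartedSpace (Fin k → ℂ) F]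
    [IsManifold 𝓘(ℂ, Fin k → ℂ) ω F] {p : Y → M} {φ : F → M}

/-- A holomorphic function on `Y` is constant on a compact component of the fibre product. -/
theorem const_of_isCompact (hcov : IsCoveringMap p)
    (hloc : IsLocalDiffeomorph 𝓘(ℂ, Fin n → ℂ) 𝓘(ℂ, Fin n → ℂ) ω p)
    (hφ : MDifferentiable 𝓘(ℂ, Fin k → ℂ) 𝓘(ℂ, Fin n → ℂ) φ) {z₀ : FP φ p}
    (hC : IsCompact (connectedComponent z₀)) {f : Y → ℂ}
    (hf : MDifferentiable 𝓘(ℂ, Fin n → ℂ) 𝓘(ℂ, ℂ) f) :
    ∀ z ∈ connectedComponent z₀, f z.1.2 = f z₀.1.2 := by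
  have hfc : Continuous fun z : FP φ p => f z.1.2 :=
    hf.continuous.comp (continuous_snd.comp continuous_subtype_val)
  obtain ⟨zm, hzm, hmax⟩ := hC.exists_isMaxOn ⟨z₀, mem_connectedComponent⟩ hfc.norm.continuousOn
  set S : Set (FP φ p) := {z | z ∈ connectedComponent z₀ ∧ f z.1.2 = f zm.1.2} with hS
  have hcl : IsClopen S := by
    refine isClopen_of_sheets hcov hloc hφ ?_
    intro x₁ N J ς L s z hz hzS
    have hsub := L.shS_subset hz hzS.1
    have hz' := hz
    rw [← L.range_par s] at hz'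
    obtain ⟨v', rfl⟩ := hz'
    have hmaxN : IsMaxOn (norm ∘ fun v => f (ς s v)) N v' := by
      intro v hv
      have h1 : ‖f (ς s v)‖ ≤ ‖f zm.1.2‖ := hmax (hsub (L.par_mem s ⟨v, hv⟩))
      have h2 : f (ς s v') = f zm.1.2 := hzS.2
      simp only [Function.comp_apply, Set.mem_ofPred_eq]
      rw [h2]
      exact h1
    have heq := Complex.eqOn_of_isPreconnected_of_isMaxOn_norm L.convex.isPreconnected L.isOpen
      (L.func f hf s) v'.2 hmaxN
    intro w hw
    refine ⟨hsub hw, ?_⟩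
    have hw' := hw
    rw [← L.range_par s] at hw'
    obtain ⟨v, rfl⟩ := hw'
    have h3 : f (ς s v) = f (ς s v') := heq v.2
    have h4 : f (ς s v') = f zm.1.2 := hzS.2
    exact h3.trans h4
  have hsub : connectedComponent zm ⊆ S := hcl.connectedComponent_subset ⟨hzm, rfl⟩
  rw [← connectedComponent_eq hzm] at hsub
  intro z hz
  rw [(hsub hz).2, (hsub mem_connectedComponent).2]

theorem const_of_separable [PreconnectedSpace F] (hcov : IsCoveringMap p)
    (hloc : IsLocalDiffeomorph 𝓘(ℂ, Fin n → ℂ) 𝓘(ℂ, Fin n → ℂ) ω p)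
    (hφ : MDifferentiable 𝓘(ℂ, Fin k → ℂ) 𝓘(ℂ, Fin n → ℂ) φ) {z₀ : FP φ p}
    (hC : IsCompact (connectedComponent z₀)) (hsep : HolSeparable n Y) (x x' : F) :
    φ x = φ x' := by
  have h1 : ∀ z ∈ connectedComponent z₀, z.1.2 = z₀.1.2 := by
    intro z hz
    by_contra hne
    obtain ⟨f, hf, hfne⟩ := hsep _ _ hne
    exact hfne (const_of_isCompact hcov hloc hφ hC hf z hz)
  have h2 : ∀ x, φ x = p z₀.1.2 := by
    intro x
    obtain ⟨z, hz, rfl⟩ := surj_fst hcov hloc hφ z₀ x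
    rw [← h1 z hz]
    exact z.2
  rw [h2 x, h2 x']

end

end Pool.Agent.Helper96.Kod
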