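import Pool.Agent.Helper96.Kod.Iit4
import Pool.Agent.Helper96.Kod.Defs4

/-! Holomorphic functions on a finite component of the fibre product. -/

open scoped Manifold ContDiff ENNReal Topology
open MeasureTheory Metric Filter
open Pool.Agent.Helper16.Abund

namespace Pool.Agent.Helper96.Kod

universe u v w

theorem diffOn_prod {E ι : Type*} [NormedAddCommGroup E] [NormedSpace ℂ E] {N : Set E}
    {h : ι → E → ℂ} (t : Finset ι) (hd : ∀ s ∈ t, DifferentiableOn ℂ (h s) N) :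
    DifferentiableOn ℂ (fun v => ∏ s ∈ t, h s v) N := by
  classical
  induction t using Finset.induction_on with
  | empty => simp
  | insert a t ha ih =>
    simp only [Finset.prod_insert ha]
    exact (hd a (Finset.mem_insert_self _ _)).mul
      (ih fun s hs => hd s (Finset.mem_insert_of_mem hs))

theorem exists_factor {E ι : Type*} [NormedAddCommGroup E] [NormedSpace ℂ E] {N : Set E}
    (hN : IsOpen N) (hc : Convex ℝ N) (hne : N.Nonempty) {h : ι → E → ℂ} (t : Finset ι)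
    (hd : ∀ s ∈ t, DifferentiableOn ℂ (h s) N) (h0 : ∀ v ∈ N, ∏ s ∈ t, h s v = 0) :
    ∃ s ∈ t, ∀ v ∈ N, h s v = 0 := by
  classical
  induction t using Finset.induction_on with
  | empty =>
    obtain ⟨v, hv⟩ := hne
    exact absurd (h0 v hv) (by simp)
  | insert a t ha ih =>
    by_cases hz : ∀ v ∈ N, h a v = 0
    · exact ⟨a, Finset.mem_insert_self _ _, hz⟩
    · push Not at hz
      obtain ⟨v₁, hv₁, hv₁0⟩ := hz
      have hca : ContinuousAt (h a) v₁ :=
        (hd a (Finset.mem_insert_self _ _)).continuousOn.continuousAt (hN.mem_nhds hv₁)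
      have hev : ∀ᶠ v in 𝓝 v₁, ∏ s ∈ t, h s v = 0 := by
        filter_upwards [hca.eventually_ne hv₁0, hN.mem_nhds hv₁] with v h1 h2
        have h3 := h0 v h2
        rw [Finset.prod_insert ha] at h3
        exact (mul_eq_zero.1 h3).resolve_left h1
      have hdp : DifferentiableOn ℂ (fun v => ∏ s ∈ t, h s v) N :=
        diffOn_prod t fun s hs => hd s (Finset.mem_insert_of_mem hs)
      have hall := eqOn_zero_of_eventually hN hc hdp hv₁ hev
      obtain ⟨s, hs, hs'⟩ := ih (fun s hs => hd s (Finset.mem_insert_of_mem hs)) hall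
      exact ⟨s, Finset.mem_insert_of_mem hs, hs'⟩

section

variable {n k : ℕ} {M : Type v} {Y : Type u} {F : Type w} [TopologicalSpace M]
    [ChartedSpace (Fin n → ℂ) M] [IsManifold 𝓘(ℂ, Fin n → ℂ) ω M] [TopologicalSpace Y]
    [ChartedSpace (Fin n → ℂ) Y] [TopologicalSpace F] [ChartedSpace (Fin k → ℂ) F]
    [IsManifold 𝓘(ℂ, Fin k → ℂ) ω F] {p : Y → M} {φ : F → M}

/-- A holomorphic function on `Y` is constant on a finite component of the fibre product, if all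
holomorphic functions on `F` are constant. -/
theorem const_of_finite (hcov : IsCoveringMap p)
    (hloc : IsLocalDiffeomorph 𝓘(ℂ, Fin n → ℂ) 𝓘(ℂ, Fin n → ℂ) ω p)
    (hφ : MDifferentiable 𝓘(ℂ, Fin k → ℂ) 𝓘(ℂ, Fin n → ℂ) φ) {z₀ : FP φ p}
    (hfin : ∀ (x₁ : F) (N : Set (Fin k → ℂ)) (J : (Fin k → ℂ) → ℂ)
      (ς : (p ⁻¹' {φ x₁}) → (Fin k → ℂ) → Y), LocData n k p φ x₁ N J ς →
      {s | shS x₁ N ς s ⊆ connectedComponent z₀}.Finite)
    (hO : OnlyConst k F) {f : Y → ℂ} (hf : MDifferentiable 𝓘(ℂ, Fin n → ℂ) 𝓘(ℂ, ℂ) f) :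
    ∀ z ∈ connectedComponent z₀, f z.1.2 = f z₀.1.2 := by
  classical
  set lam := f z₀.1.2 with hlam
  set G : F → ℂ := fun x => ∏ᶠ z ∈ {z : FP φ p | z ∈ connectedComponent z₀ ∧ z.1.1 = x},
    (f z.1.2 - lam) with hG
  -- the local formula
  have hloc' : ∀ (x₁ : F) (N : Set (Fin k → ℂ)) (J : (Fin k → ℂ) → ℂ)
      (ς : (p ⁻¹' {φ x₁}) → (Fin k → ℂ) → Y) (L : LocData n k p φ x₁ N J ς) (v : N),
      G ((chartAt (Fin k → ℂ) x₁).symm v) =
        ∏ s ∈ (hfin x₁ N J ς L).toFinset, (f (ς s v) - lam) := by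
    intro x₁ N J ς L v
    have hset : {z : FP φ p | z ∈ connectedComponent z₀ ∧
        z.1.1 = (chartAt (Fin k → ℂ) x₁).symm v} =
        (fun s => L.par s v) '' {s | shS x₁ N ς s ⊆ connectedComponent z₀} := by
      ext z
      constructor
      · rintro ⟨hz, hzx⟩
        obtain ⟨s, hs⟩ := L.exists_sheet (z := z) (by rw [hzx]; exact L.symm_mem_bS v.2)
        refine ⟨s, L.shS_subset hs hz, ?_⟩
        have h3 := hs.2.2
        rw [hzx, (chartAt (Fin k → ℂ) x₁).right_inv (L.sub v.2)] at h3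
        apply Subtype.ext
        exact Prod.ext hzx.symm h3.symm
      · rintro ⟨s, hs, rfl⟩
        exact ⟨hs (L.par_mem s v), rfl⟩
    have hinj : Set.InjOn (fun s => L.par s v) {s | shS x₁ N ς s ⊆ connectedComponent z₀} := by
      intro s _ t _ hst
      apply L.injective v.2
      exact congrArg (fun z : FP φ p => z.1.2) hst
    simp only [hG]
    rw [hset, finprod_mem_image hinj, finprod_mem_eq_finite_toFinset_prod _ (hfin x₁ N J ς L)]
    rfl
  have hdP : ∀ (x₁ : F) (N : Set (Fin k → ℂ)) (J : (Fin k → ℂ) → ℂ)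
      (ς : (p ⁻¹' {φ x₁}) → (Fin k → ℂ) → Y) (L : LocData n k p φ x₁ N J ς),
      ∀ s ∈ (hfin x₁ N J ς L).toFinset, DifferentiableOn ℂ (fun v => f (ς s v) - lam) N := by
    intro x₁ N J ς L s _
    exact (L.func f hf s).sub_const lam
  -- `G` is holomorphic
  have hGd : MDifferentiable 𝓘(ℂ, Fin k → ℂ) 𝓘(ℂ, ℂ) G := by
    intro x₁
    obtain ⟨N, J, ς, L⟩ := exists_locData (k := k) hcov hloc hφ x₁
    set P : (Fin k → ℂ) → ℂ := fun v => ∏ s ∈ (hfin x₁ N J ς L).toFinset, (f (ς s v) - lam)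
      with hP
    have hPd : DifferentiableOn ℂ P N := diffOn_prod _ (hdP x₁ N J ς L)
    have h1 : MDifferentiableAt 𝓘(ℂ, Fin k → ℂ) 𝓘(ℂ, ℂ) P (chartAt (Fin k → ℂ) x₁ x₁) :=
      (hPd.differentiableAt (L.isOpen.mem_nhds L.mem)).mdifferentiableAt
    have h2 : MDifferentiableAt 𝓘(ℂ, Fin k → ℂ) 𝓘(ℂ, Fin k → ℂ) (chartAt (Fin k → ℂ) x₁) x₁ :=
      (mdiff_chart x₁).mdifferentiableAt ((chartAt (Fin k → ℂ) x₁).open_source.mem_nhds
        (mem_chart_source _ x₁))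
    have h3 : MDifferentiableAt 𝓘(ℂ, Fin k → ℂ) 𝓘(ℂ, ℂ)
        (P ∘ chartAt (Fin k → ℂ) x₁) x₁ := h1.comp x₁ h2
    refine h3.congr_of_eventuallyEq ?_
    filter_upwards [L.isOpen_bS.mem_nhds L.mem_bS] with x hx
    have h4 := hloc' x₁ N J ς L ⟨_, hx.2⟩
    rw [(chartAt (Fin k → ℂ) x₁).left_inv hx.1] at h4
    exact h4
  -- `G = 0`
  obtain ⟨N, J, ς, L⟩ := exists_locData (k := k) hcov hloc hφ z₀.1.1
  obtain ⟨s₀, hs₀⟩ := L.exists_sheet (z := z₀) L.mem_bS
  have hz' := hs₀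
  rw [← L.range_par s₀] at hz'
  obtain ⟨v₀, hv₀⟩ := hz'
  have hG0 : G ((chartAt (Fin k → ℂ) z₀.1.1).symm v₀) = 0 := by
    rw [hloc' _ N J ς L v₀]
    apply Finset.prod_eq_zero (i := s₀)
    · rw [Set.Finite.mem_toFinset]
      exact L.shS_subset hs₀ mem_connectedComponent
    · have h1 : ς s₀ v₀ = z₀.1.2 := by rw [← hv₀]; rfl
      rw [h1, sub_self]
  have hGz : ∀ x, G x = 0 := fun x => (hO G hGd x _).trans hG0
  obtain ⟨s, hs, hs'⟩ := exists_factor L.isOpen L.convex ⟨_, L.mem⟩ _ (hdP _ N J ς L) (by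
    intro v hv
    rw [← hloc' _ N J ς L ⟨v, hv⟩]
    exact hGz _)
  rw [Set.Finite.mem_toFinset] at hs
  -- the clopen set
  set S : Set (FP φ p) := {z | ∀ᶠ w in 𝓝 z, f w.1.2 = lam} with hS
  have hshS : ∀ (x₁ : F) (N : Set (Fin k → ℂ)) (J : (Fin k → ℂ) → ℂ)
      (ς : (p ⁻¹' {φ x₁}) → (Fin k → ℂ) → Y), LocData n k p φ x₁ N J ς → ∀ s,
      (∀ v ∈ N, f (ς s v) - lam = 0) → shS x₁ N ς s ⊆ S := by
    intro x₁ N J ς L s h w hw
    refine Filter.mem_of_superset ((L.isOpen_shS hcov.isLocalHomeomorph s).mem_nhds hw) ?_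
    intro z hz
    rw [← L.range_par s] at hz
    obtain ⟨v, rfl⟩ := hz
    exact sub_eq_zero.1 (h v v.2)
  have hcl : IsClopen S := by
    refine isClopen_of_sheets hcov hloc hφ ?_
    intro x₁ N J ς L s z hz hzS
    rw [← L.range_par s] at hz
    obtain ⟨v', rfl⟩ := hz
    have h1 : ∀ᶠ v : N in 𝓝 v', f (L.par s v).1.2 = lam :=
      (L.continuous_par s).continuousAt.eventually hzS
    have h2 : ∀ᶠ v in 𝓝 (v' : Fin k → ℂ), f (ς s v) - lam = 0 := by
      rw [← L.isOpen.isOpenEmbedding_subtypeVal.map_nhds_eq v', Filter.eventually_map]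
      filter_upwards [h1] with v hv
      exact sub_eq_zero.2 hv
    exact hshS x₁ N J ς L s
      (eqOn_zero_of_eventually L.isOpen L.convex ((L.func f hf s).sub_const lam) v'.2 h2)
  have hmem : L.par s v₀ ∈ connectedComponent z₀ := hs (L.par_mem s v₀)
  have hmemS : L.par s v₀ ∈ S := hshS _ N J ς L s hs' (L.par_mem s v₀)
  have hsub := hcl.connectedComponent_subset hmemS
  rw [← connectedComponent_eq hmem] at hsub
  intro z hz
  have h5 : ∀ᶠ w in 𝓝 z, f w.1.2 = lam := hsub hz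
  exact h5.self_of_nhds

/-- Separation of points. -/
theorem const_of_separable' [PreconnectedSpace F] (hcov : IsCoveringMap p)
    (hloc : IsLocalDiffeomorph 𝓘(ℂ, Fin n → ℂ) 𝓘(ℂ, Fin n → ℂ) ω p)
    (hφ : MDifferentiable 𝓘(ℂ, Fin k → ℂ) 𝓘(ℂ, Fin n → ℂ) φ) {z₀ : FP φ p}
    (hfin : ∀ (x₁ : F) (N : Set (Fin k → ℂ)) (J : (Fin k → ℂ) → ℂ)
      (ς : (p ⁻¹' {φ x₁}) → (Fin k → ℂ) → Y), LocData n k p φ x₁ N J ς →
      {s | shS x₁ N ς s ⊆ connectedComponent z₀}.Finite)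
    (hO : OnlyConst k F) (hsep : HolSeparable n Y) (x x' : F) : φ x = φ x' := by
  have h1 : ∀ z ∈ connectedComponent z₀, z.1.2 = z₀.1.2 := by
    intro z hz
    by_contra hne
    obtain ⟨f, hf, hfne⟩ := hsep _ _ hne
    exact hfne (const_of_finite hcov hloc hφ hfin hO hf z hz)
  have h2 : ∀ x, φ x = p z₀.1.2 := by
    intro x
    obtain ⟨z, hz, rfl⟩ := surj_fst hcov hloc hφ z₀ x
    rw [← h1 z hz]
    exact z.2
  rw [h2 x, h2 x']

end

end Pool.Agent.Helper96.Kod
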