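import Pool.Agent.Helper96.Kod.Cor

/-! Local data of a covering pulled back to a manifold `F`. -/

open scoped Manifold ContDiff ENNReal Topology
open MeasureTheory Metric
open Pool.Agent.Helper16.Abund

namespace Pool.Agent.Helper96.Kod

/-- Sheets of the covering `p : Y → M` over a coordinate ball `N` of `F`, mapped to `M` by `φ`, and
the factor `J` relating preferred charts to the chart at `φ x₁`. -/
structure LocData (n k : ℕ) {M Y F : Type*} [TopologicalSpace M] [ChartedSpace (Fin n → ℂ) M]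
    [TopologicalSpace Y] [ChartedSpace (Fin n → ℂ) Y] [TopologicalSpace F]
    [ChartedSpace (Fin k → ℂ) F] (p : Y → M) (φ : F → M) (x₁ : F) (N : Set (Fin k → ℂ))
    (J : (Fin k → ℂ) → ℂ) (ς : (p ⁻¹' {φ x₁}) → (Fin k → ℂ) → Y) : Prop where
  isOpen : IsOpen N
  convex : Convex ℝ N
  mem : chartAt (Fin k → ℂ) x₁ x₁ ∈ N
  sub : N ⊆ (chartAt (Fin k → ℂ) x₁).target
  J_ne : ∀ v ∈ N, J v ≠ 0
  cont : ∀ s, ContinuousOn (ς s) N
  sect : ∀ s, ∀ v ∈ N, p (ς s v) = φ ((chartAt (Fin k → ℂ) x₁).symm v)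
  uniq : ∀ v ∈ N, ∀ y, p y = φ ((chartAt (Fin k → ℂ) x₁).symm v) → ∃! s, ς s v = y
  base : ∀ s, ς s (chartAt (Fin k → ℂ) x₁ x₁) = s
  form : ∀ (m : ℕ) (c : M → ℂ), IsPluriForm n M m c →
    DifferentiableOn ℂ (fun v => c (φ ((chartAt (Fin k → ℂ) x₁).symm v)) * J v ^ m) N
  sheet : ∀ (m : ℕ) (η : Y → ℂ), IsPluriForm n Y m η → ∀ s,
    DifferentiableOn ℂ (fun v => η (ς s v) / jac n p (ς s v) ^ m * J v ^ m) N
  func : ∀ f : Y → ℂ, MDifferentiable 𝓘(ℂ, Fin n → ℂ) 𝓘(ℂ, ℂ) f → ∀ s,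
    DifferentiableOn ℂ (fun v => f (ς s v)) N

theorem exists_locData {n k : ℕ} {M Y F : Type*} [TopologicalSpace M] [ChartedSpace (Fin n → ℂ) M]
    [IsManifold 𝓘(ℂ, Fin n → ℂ) ω M]
    [TopologicalSpace Y] [ChartedSpace (Fin n → ℂ) Y] [TopologicalSpace F]
    [ChartedSpace (Fin k → ℂ) F] [IsManifold 𝓘(ℂ, Fin k → ℂ) ω F] {p : Y → M}
    (hcov : IsCoveringMap p)
    (hloc : IsLocalDiffeomorph 𝓘(ℂ, Fin n → ℂ) 𝓘(ℂ, Fin n → ℂ) ω p) {φ : F → M}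
    (hφ : MDifferentiable 𝓘(ℂ, Fin k → ℂ) 𝓘(ℂ, Fin n → ℂ) φ) (x₁ : F) :
    ∃ N J ς, LocData n k p φ x₁ N J ς := by
  classical
  obtain ⟨U, σ, S⟩ := exists_sheets (n := n) hcov hloc (φ x₁)
  set ξ := chartAt (Fin k → ℂ) x₁ with hξ
  set χ := chartAt (Fin n → ℂ) (φ x₁) with hχ
  have hO : IsOpen (χ.source ∩ U) := χ.open_source.inter S.isOpen
  have hW₀ : IsOpen (φ ⁻¹' (χ.source ∩ U)) := hO.preimage hφ.continuous
  have hN₀ : IsOpen (ξ.target ∩ ξ.symm ⁻¹' (φ ⁻¹' (χ.source ∩ U))) :=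
    ξ.isOpen_inter_preimage_symm hW₀
  have hx₁s : x₁ ∈ ξ.source := mem_chart_source _ x₁
  have hmem : ξ x₁ ∈ ξ.target ∩ ξ.symm ⁻¹' (φ ⁻¹' (χ.source ∩ U)) := by
    refine ⟨ξ.map_source hx₁s, ?_⟩
    simp only [Set.mem_preimage]
    rw [ξ.left_inv hx₁s]
    exact ⟨mem_chart_source _ _, S.mem⟩
  obtain ⟨ε, hε, hsub⟩ := Metric.isOpen_iff.1 hN₀ _ hmem
  set N : Set (Fin k → ℂ) := ball (ξ x₁) ε with hN
  have hNt : ∀ v ∈ N, v ∈ ξ.target := fun v hv => (hsub hv).1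
  have hNs : ∀ v ∈ N, φ (ξ.symm v) ∈ χ.source := fun v hv => (hsub hv).2.1
  have hNU : ∀ v ∈ N, φ (ξ.symm v) ∈ U := fun v hv => (hsub hv).2.2
  have hξm : ∀ v ∈ N, MDifferentiableAt 𝓘(ℂ, Fin k → ℂ) 𝓘(ℂ, Fin k → ℂ) ξ.symm v :=
    fun v hv => (mdifferentiableOn_atlas_symm (chart_mem_atlas _ x₁)).mdifferentiableAt
      (ξ.open_target.mem_nhds (hNt v hv))
  have hΦ : ∀ v ∈ N, MDifferentiableAt 𝓘(ℂ, Fin k → ℂ) 𝓘(ℂ, Fin n → ℂ)
      (fun v => φ (ξ.symm v)) v := fun v hv => (hφ (ξ.symm v)).comp v (hξm v hv)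
  have hχm : ∀ v ∈ N, MDifferentiableAt 𝓘(ℂ, Fin n → ℂ) 𝓘(ℂ, Fin n → ℂ) χ (φ (ξ.symm v)) :=
    fun v hv => (mdiff_chart (φ x₁)).mdifferentiableAt (χ.open_source.mem_nhds (hNs v hv))
  have hχΦ : DifferentiableOn ℂ (fun v => χ (φ (ξ.symm v))) N := by
    intro v hv
    have h1 : MDifferentiableAt 𝓘(ℂ, Fin k → ℂ) 𝓘(ℂ, Fin n → ℂ)
        (fun v => χ (φ (ξ.symm v))) v := (hχm v hv).comp v (hΦ v hv)
    exact h1.differentiableAt.differentiableWithinAt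
  have hσm : ∀ s, ∀ v ∈ N, MDifferentiableAt 𝓘(ℂ, Fin n → ℂ) 𝓘(ℂ, Fin n → ℂ) (σ s)
      (φ (ξ.symm v)) := fun s v hv => (S.mdiff s).mdifferentiableAt (S.isOpen.mem_nhds (hNU v hv))
  refine ⟨N, fun v => jac n χ.symm (χ (φ (ξ.symm v))), fun s v => σ s (φ (ξ.symm v)), ?_⟩
  refine ⟨isOpen_ball, convex_ball _ _, mem_ball_self hε, hNt, ?_, ?_, ?_, ?_, ?_, ?_, ?_, ?_⟩
  · intro v hv
    exact jac_chart_symm_ne_zero (φ x₁) (χ.map_source (hNs v hv))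
  · intro s v hv
    have h1 : MDifferentiableAt 𝓘(ℂ, Fin k → ℂ) 𝓘(ℂ, Fin n → ℂ) (fun v => σ s (φ (ξ.symm v))) v :=
      (hσm s v hv).comp v (hΦ v hv)
    exact h1.continuousAt.continuousWithinAt
  · intro s v hv
    exact S.sect s _ (hNU v hv)
  · intro v hv y hy
    have h1 := S.uniq y (by rw [hy]; exact hNU v hv)
    rw [hy] at h1
    exact h1
  · intro s
    rw [ξ.left_inv hx₁s]
    exact S.base s
  · intro m c hc
    have h1 : DifferentiableOn ℂ (fun z => c (χ.symm z) * jac n χ.symm z ^ m) χ.target :=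
      hc χ.target χ.symm χ.open_target (mdiff_chart_symm (φ x₁))
    have h2 := h1.comp hχΦ fun v hv => χ.map_source (hNs v hv)
    refine h2.congr fun v hv => ?_
    simp only [Function.comp_apply]
    rw [χ.left_inv (hNs v hv)]
  · intro m η hη s
    have hB' : IsOpen (χ.target ∩ χ.symm ⁻¹' U) := χ.isOpen_inter_preimage_symm S.isOpen
    have h1 := hη.sheet S s hB' ((mdiff_chart_symm (φ x₁)).mono Set.inter_subset_left)
      fun z hz => hz.2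
    have hmap : ∀ v ∈ N, χ (φ (ξ.symm v)) ∈ χ.target ∩ χ.symm ⁻¹' U := by
      intro v hv
      refine ⟨χ.map_source (hNs v hv), ?_⟩
      rw [Set.mem_preimage, χ.left_inv (hNs v hv)]
      exact hNU v hv
    have h2 := h1.comp hχΦ hmap
    refine h2.congr fun v hv => ?_
    simp only [Function.comp_apply]
    rw [S.jac_comp_sheet hloc s ((mdiff_chart_symm (φ x₁)).mdifferentiableAt
      (χ.open_target.mem_nhds (hmap v hv).1)) (hmap v hv).2, χ.left_inv (hNs v hv), div_pow]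
    ring
  · intro f hf s v hv
    have h1 : MDifferentiableAt 𝓘(ℂ, Fin k → ℂ) 𝓘(ℂ, ℂ) (fun v => f (σ s (φ (ξ.symm v)))) v :=
      (hf _).comp v ((hσm s v hv).comp v (hΦ v hv))
    exact h1.differentiableAt.differentiableWithinAt

end Pool.Agent.Helper96.Kod
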