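import Pool.Agent.Helper96.Kod.Bd

/-! Kodaira dimension from `L^q` forms on coverings. -/

open scoped Manifold ContDiff ENNReal Topology
open MeasureTheory Metric
open Pool.Agent.Helper8.Abund (differentiableOn_fderiv)
open Pool.Agent.Helper16.Abund

namespace Pool.Agent.Helper96.Kod

universe u v

theorem surj_near {n r : ℕ} {R : (Fin n → ℂ) → (Fin r → ℂ)} {V : Set (Fin n → ℂ)} (hV : IsOpen V)
    (hR : DifferentiableOn ℂ R V) {z₀ : Fin n → ℂ} (hz₀ : z₀ ∈ V)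
    (hs : Function.Surjective (fderiv ℂ R z₀)) :
    ∀ᶠ z in 𝓝 z₀, Function.Surjective (fderiv ℂ R z) := by
  obtain ⟨g, hg⟩ := ((fderiv ℂ R z₀ : (Fin n → ℂ) →L[ℂ] (Fin r → ℂ)) :
    (Fin n → ℂ) →ₗ[ℂ] (Fin r → ℂ)).exists_rightInverse_of_surjective
      (LinearMap.range_eq_top.2 hs)
  let G : (Fin r → ℂ) →L[ℂ] (Fin n → ℂ) := LinearMap.toContinuousLinearMap g
  have hc : ContinuousAt (fderiv ℂ R) z₀ :=
    (differentiableOn_fderiv hV hR).continuousOn.continuousAt (hV.mem_nhds hz₀)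
  have hc2 : ContinuousAt (fun z => (fderiv ℂ R z).comp G) z₀ :=
    hc.clm_comp continuousAt_const
  have h1 : (fderiv ℂ R z₀).comp G = 1 := by
    ext v i
    have := LinearMap.congr_fun hg v
    exact congrFun this i
  have h2 : ∀ᶠ z in 𝓝 z₀, IsUnit ((fderiv ℂ R z).comp G) := by
    apply hc2.eventually
    have h3 : {x : (Fin r → ℂ) →L[ℂ] (Fin r → ℂ) | IsUnit x} ∈
        𝓝 ((fderiv ℂ R z₀).comp G) := by
      rw [h1]
      exact Units.isOpen.mem_nhds isUnit_one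
    exact h3
  filter_upwards [h2] with z hz
  have h3 := (ContinuousLinearMap.isUnit_iff_bijective.1 hz).2
  exact Function.Surjective.of_comp h3

theorem isPluriForm_mul {n : ℕ} {M : Type*} [TopologicalSpace M] [ChartedSpace (Fin n → ℂ) M]
    {a b : ℕ} {c d : M → ℂ} (hc : IsPluriForm n M a c) (hd : IsPluriForm n M b d) :
    IsPluriForm n M (a + b) (fun x => c x * d x) := by
  intro V ψ hV hψ
  refine ((hc V ψ hV hψ).mul (hd V ψ hV hψ)).congr fun z _ => ?_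
  simp only [Pi.mul_apply]
  rw [pow_add]
  ring

theorem lin_single {N : ℕ} (z : Fin (N + 1) → ℂ) : lin (Pi.single 0 1) z = z 0 := by
  simp [lin, Pi.single_apply]

theorem kodairaGE (h1 : StmtK1.{u}) (h2 : StmtK2) (h3 : StmtK3.{0, u}) (h5 : StmtK5.{0, u})
    (h6 : StmtK6.{0, 0}) {n r : ℕ} {M : Type v} {Y : Type u} [TopologicalSpace M]
    [ChartedSpace (Fin n → ℂ) M] [IsManifold 𝓘(ℂ, Fin n → ℂ) ω M] [TopologicalSpace Y]
    [ChartedSpace (Fin n → ℂ) Y] {p : Y → M} (hcov : IsCoveringMap p)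
    (hloc : IsLocalDiffeomorph 𝓘(ℂ, Fin n → ℂ) 𝓘(ℂ, Fin n → ℂ) ω p) {m : ℕ} (hm : 1 ≤ m)
    {q : ℝ} (hq : 0 < q) {η : Fin (r + 1) → Y → ℂ} (hη : ∀ i, IsPluriForm n Y m (η i))
    (hLq : ∀ i, FibreLq n p m q (η i)) (hind : ∃ y, IndepAt n r η y) : KodairaGE n r M := by
  classical
  obtain ⟨y₀, hy0, hsurj⟩ := hind
  change Function.Surjective (mfderiv 𝓘(ℂ, Fin n → ℂ) 𝓘(ℂ, Fin r → ℂ)
    (fun y (i : Fin r) => η i.succ y / η 0 y) y₀) at hsurj
  have hbd : ∀ i, LocBd n p m q (η i) := fun i => locBd_of_fibreLq hloc (hη i) hq (hLq i)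
  obtain ⟨x₀, hx₀⟩ : ∃ x₀, p y₀ = x₀ := ⟨_, rfl⟩
  obtain ⟨U, σ, S⟩ := exists_sheets (n := n) hcov hloc x₀
  obtain ⟨ρ, hρ, u, hu, hu0, hb⟩ := locBd_vec hq hbd x₀ U σ S
  set χ := chartAt (Fin n → ℂ) x₀ with hχ
  let s₀ : p ⁻¹' {x₀} := ⟨y₀, hx₀⟩
  have hσ₀ : σ s₀ x₀ = y₀ := S.base s₀
  have hx₀s : x₀ ∈ χ.source := mem_chart_source _ x₀
  set B : Set (Fin n → ℂ) := ball (χ x₀) ρ with hB
  have hz₀B : χ x₀ ∈ B := mem_ball_self hρ
  have hBo : IsOpen B := isOpen_ball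
  let a : (p ⁻¹' {x₀}) → (Fin n → ℂ) → Fin (r + 1) → ℂ := fun s z i =>
    η i (σ s (χ.symm z)) * jac n (fun w => σ s (χ.symm w)) z ^ m
  have hsymmB : MDifferentiableOn 𝓘(ℂ, Fin n → ℂ) 𝓘(ℂ, Fin n → ℂ) χ.symm B :=
    (mdiff_chart_symm x₀).mono fun z hz => (hb z hz).1
  have had : ∀ s, DifferentiableOn ℂ (a s) B := fun s =>
    differentiableOn_pi.2 fun i => (hη i).sheet S s hBo hsymmB fun z hz => (hb z hz).2.1
  have hbq : ∀ s, ∀ z ∈ B, ‖a s z‖ ^ q ≤ u s := fun s z hz => (hb z hz).2.2 s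
  have hJ : ∀ s, ∀ z ∈ B, jac n (fun w => σ s (χ.symm w)) z ≠ 0 := by
    intro s z hz
    rw [S.jac_comp_sheet hloc s (hsymmB.mdifferentiableAt (hBo.mem_nhds hz)) (hb z hz).2.1]
    exact div_ne_zero (jac_chart_symm_ne_zero x₀ (hb z hz).1) (jac_ne_zero hloc _)
  have ha0 : a s₀ (χ x₀) 0 ≠ 0 := by
    refine mul_ne_zero ?_ (pow_ne_zero _ (hJ s₀ _ hz₀B))
    rw [χ.left_inv hx₀s, hσ₀]
    exact hy0
  -- the exponent
  have hsum0 : Summable fun s => ‖a s (χ x₀) 0‖ ^ q :=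
    Summable.of_nonneg_of_le (fun s => by positivity) (fun s =>
      (Real.rpow_le_rpow (norm_nonneg _) (norm_le_pi_norm _ _) hq.le).trans (hbq s _ hz₀B)) hu
  obtain ⟨k, hkK, hkb⟩ := exists_powerSum hq hsum0 s₀ (⌈q⌉₊ + 1)
  have hk1 : 1 ≤ k := by omega
  have hqk : q ≤ k := (Nat.le_ceil q).trans (by exact_mod_cast (by omega : ⌈q⌉₊ ≤ k))
  set u₀ : Fin (r + 1) → ℂ := Pi.single 0 1 with hu₀
  let u' : (p ⁻¹' {x₀}) → ℝ := fun s => u s ^ ((k : ℝ) / q)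
  have hu' : Summable u' := summable_rpow_of_one_le hu hu0 (by rwa [one_le_div hq])
  have hbk : ∀ s, ∀ z ∈ B, ‖a s z‖ ^ k ≤ u' s := fun s z hz =>
    norm_pow_le_rpow (norm_nonneg _) hq (hbq s z hz) k
  let P : (Fin (r + 1) → ℂ) → ℕ → (Fin n → ℂ) → ℂ := fun w k' z => ∑' s, lin w (a s z) ^ k'
  have hPd : ∀ w l, 1 ≤ l → DifferentiableOn ℂ (P w (k * l)) B := by
    intro w l hl
    have hqkl : q ≤ ((k * l : ℕ) : ℝ) := hqk.trans (by
      exact_mod_cast Nat.le_mul_of_pos_right k hl)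
    have hkl1 : 1 ≤ ((k * l : ℕ) : ℝ) / q := by rwa [one_le_div hq]
    refine differentiableOn_tsum hBo (u := fun s => (∑ i, ‖w i‖) ^ (k * l) *
      u s ^ (((k * l : ℕ) : ℝ) / q)) (fun s => ?_)
      ((summable_rpow_of_one_le hu hu0 hkl1).mul_left _) fun s z hz => ?_
    · have h7 : DifferentiableOn ℂ (fun z => lin w (a s z)) B :=
        ((linL w).differentiable.comp_differentiableOn (had s)).congr
          fun x _ => (linL_apply w (a s x)).symm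
      exact h7.pow _
    · rw [norm_pow]
      calc ‖lin w (a s z)‖ ^ (k * l) ≤ ((∑ i, ‖w i‖) * ‖a s z‖) ^ (k * l) :=
            pow_le_pow_left₀ (norm_nonneg _) (norm_lin_le _ _) _
        _ = (∑ i, ‖w i‖) ^ (k * l) * ‖a s z‖ ^ (k * l) := mul_pow _ _ _
        _ ≤ _ := mul_le_mul_of_nonneg_left
            (norm_pow_le_rpow (norm_nonneg _) hq (hbq s z hz) _) (by positivity)
  have hP0d : DifferentiableOn ℂ (P u₀ k) B := by
    have := hPd u₀ 1 le_rfl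
    rwa [mul_one] at this
  have hP0 : P u₀ k (χ x₀) ≠ 0 := by
    have e : P u₀ k (χ x₀) = ∑' s, a s (χ x₀) 0 ^ k := by
      simp only [P, hu₀, lin_single]
    rw [e]
    intro h0
    have h7 : (0 : ℝ) < ‖a s₀ (χ x₀) 0‖ ^ k := pow_pos (norm_pos_iff.2 ha0) k
    rw [h0, norm_zero, mul_zero] at hkb
    exact absurd hkb (not_le.2 h7)
  -- the ratios on the sheet `s₀`
  let R : (Fin n → ℂ) → (Fin r → ℂ) := fun z i => a s₀ z i.succ / a s₀ z 0
  have hai : ∀ i, DifferentiableOn ℂ (fun z => a s₀ z i) B := fun i =>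
    (differentiableOn_pi.1 (had s₀)) i
  have hB₁o : IsOpen (B ∩ (fun z => a s₀ z 0) ⁻¹' {0}ᶜ) :=
    (hai 0).continuousOn.isOpen_inter_preimage hBo isOpen_compl_singleton
  set B₁ := B ∩ (fun z => a s₀ z 0) ⁻¹' {0}ᶜ with hB₁
  have hRd : DifferentiableOn ℂ R B₁ := by
    refine differentiableOn_pi.2 fun i => ?_
    change DifferentiableOn ℂ (fun z => a s₀ z i.succ / a s₀ z 0) B₁
    simp only [div_eq_mul_inv]
    exact ((hai i.succ).mono Set.inter_subset_left).fun_mul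
      (((hai 0).mono Set.inter_subset_left).fun_inv fun z hz => hz.2)
  have hz₀B₁ : χ x₀ ∈ B₁ := ⟨hz₀B, ha0⟩
  have hpat : MDifferentiableAt 𝓘(ℂ, Fin n → ℂ) 𝓘(ℂ, Fin n → ℂ) p y₀ :=
    (hloc y₀).mdifferentiableAt (by simp)
  have hχat : MDifferentiableAt 𝓘(ℂ, Fin n → ℂ) 𝓘(ℂ, Fin n → ℂ) χ (p y₀) := by
    rw [hx₀]
    exact (mdiff_chart x₀).mdifferentiableAt (χ.open_source.mem_nhds hx₀s)
  have hRsurj : Function.Surjective (fderiv ℂ R (χ x₀)) := by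
    have hev : (fun y (i : Fin r) => η i.succ y / η 0 y) =ᶠ[𝓝 y₀] R ∘ (χ ∘ p) := by
      have e1 := (hloc y₀).localInverse_eventuallyEq_left
      have hpc : ContinuousAt p y₀ := hpat.continuousAt
      have hσc : ContinuousAt (σ s₀) (p y₀) := by
        rw [hx₀]
        exact ((S.mdiff s₀).mdifferentiableAt (S.isOpen.mem_nhds S.mem)).continuousAt
      have hσp : Filter.Tendsto (fun y => σ s₀ (p y)) (𝓝 y₀) (𝓝 y₀) := by
        have := hσc.tendsto.comp hpc.tendsto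
        rwa [hx₀, hσ₀] at this
      have e2 := hσp.eventually e1
      have e3 : ∀ᶠ y in 𝓝 y₀, χ (p y) ∈ B :=
        (hχat.continuousAt.comp hpc).preimage_mem_nhds (by
          simp only [Function.comp_apply, hx₀]; exact hBo.mem_nhds hz₀B)
      have e4 : ∀ᶠ y in 𝓝 y₀, p y ∈ χ.source := hpc.preimage_mem_nhds (by
        rw [hx₀]; exact χ.open_source.mem_nhds hx₀s)
      have e5 : ∀ᶠ y in 𝓝 y₀, p y ∈ U := hpc.preimage_mem_nhds (by
        rw [hx₀]; exact S.isOpen.mem_nhds S.mem)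
      filter_upwards [e1, e2, e3, e4, e5] with y h7 h8 h9 h10 h11
      have h12 : σ s₀ (p y) = y := by
        simp only [Function.comp_apply, id] at h7 h8
        rw [S.sect s₀ _ h11] at h8
        rw [← h8, h7]
      funext i
      simp only [Function.comp_apply, R, a]
      rw [χ.left_inv h10, h12, mul_div_mul_right _ _ (pow_ne_zero _ (hJ s₀ _ h9))]
    have hχp : (χ ∘ p) y₀ = χ x₀ := by rw [Function.comp_apply, hx₀]
    have hRat : MDifferentiableAt 𝓘(ℂ, Fin n → ℂ) 𝓘(ℂ, Fin r → ℂ) R ((χ ∘ p) y₀) := by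
      rw [hχp]
      exact (hRd.differentiableAt (hB₁o.mem_nhds hz₀B₁)).mdifferentiableAt
    have hcp : MDifferentiableAt 𝓘(ℂ, Fin n → ℂ) 𝓘(ℂ, Fin n → ℂ) (χ ∘ p) y₀ :=
      hχat.comp y₀ hpat
    rw [hev.mfderiv_eq, mfderiv_comp y₀ hRat hcp, mfderiv_eq_fderiv] at hsurj
    have h7 : Function.Surjective
        ((fderiv ℂ R ((χ ∘ p) y₀)) ∘ (mfderiv 𝓘(ℂ, Fin n → ℂ) 𝓘(ℂ, Fin n → ℂ) (χ ∘ p) y₀)) :=
      hsurj
    rw [← hχp]
    exact Function.Surjective.of_comp h7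
  -- a small open set
  have hP0c : ContinuousAt (P u₀ k) (χ x₀) := hP0d.continuousOn.continuousAt (hBo.mem_nhds hz₀B)
  obtain ⟨V, hVsub, hVo, hz₀V⟩ := _root_.mem_nhds_iff.1
    (Filter.inter_mem (hB₁o.mem_nhds hz₀B₁)
      ((surj_near hB₁o hRd hz₀B₁ hRsurj).and (hP0c.eventually_ne hP0)))
  have hVB : V ⊆ B := fun z hz => (hVsub hz).1.1
  have ha0' : a s₀ (χ x₀) ≠ 0 := fun h => ha0 (congrFun h 0)
  obtain ⟨z₁, hz₁V, hz₁0, hgen⟩ := h5 (Fin n → ℂ) (r + 1) (p ⁻¹' {x₀}) a u' V k s₀ (χ x₀) hk1 hVo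
    hz₀V (fun s => (had s).continuousOn.mono hVB) hu' (fun s z hz => hbk s z (hVB hz)) ha0'
  have hz₁B : z₁ ∈ B := hVB hz₁V
  have hPz₁ : P u₀ k z₁ ≠ 0 := (hVsub hz₁V).2.2
  have hRz₁ : Function.Surjective (fderiv ℂ R z₁) := (hVsub hz₁V).2.1
  have haz₁ : a s₀ z₁ 0 ≠ 0 := (hVsub hz₁V).1.2
  let Q : (Fin (r + 1) → ℂ) → ℕ → (Fin n → ℂ) → ℂ := fun w l z => P w (k * l) z / P u₀ k z ^ l
  have hQd : ∀ w l, 1 ≤ l → DifferentiableAt ℂ (Q w l) z₁ := by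
    intro w l hl
    change DifferentiableAt ℂ (fun z => P w (k * l) z / P u₀ k z ^ l) z₁
    simp only [div_eq_mul_inv]
    exact ((hPd w l hl).differentiableAt (hBo.mem_nhds hz₁B)).fun_mul
      (((hP0d.differentiableAt (hBo.mem_nhds hz₁B)).fun_pow l).fun_inv (pow_ne_zero _ hPz₁))
  -- kernel condition
  obtain ⟨i, hi⟩ := h6 (Fin n → ℂ) r ((Fin (r + 1) → ℂ) × ℕ)
    (fun t => (fderiv ℂ (Q t.1 (t.2 + 1)) z₁ : (Fin n → ℂ) →L[ℂ] ℂ))
    (fderiv ℂ R z₁ : (Fin n → ℂ) →L[ℂ] (Fin r → ℂ)) hRz₁ (by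
      intro v hv
      obtain ⟨θ, hθ⟩ := core h1 h2 h3 (N := r + 1) (a := a) (u := u') (U := B) (k := k) (s₀ := s₀)
        (x₁ := z₁) hk1 hBo hz₁B had hu' hbk hz₁0 hgen (u₀ := u₀) hPz₁ (v := v) (by
          intro w l hl
          obtain ⟨l', rfl⟩ : ∃ l', l = l' + 1 := ⟨l - 1, by omega⟩
          exact hv (w, l'))
      have hder : ∀ j, HasFDerivAt (fun z => a s₀ z j)
          ((ContinuousLinearMap.proj (R := ℂ) (φ := fun _ : Fin (r + 1) => ℂ) j).comp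
            (fderiv ℂ (a s₀) z₁)) z₁ := by
        intro j
        have h7 : HasFDerivAt (a s₀) (fderiv ℂ (a s₀) z₁) z₁ :=
          ((had s₀).differentiableAt (hBo.mem_nhds hz₁B)).hasFDerivAt
        exact (hasFDerivAt_pi'.1 h7) j
      have hval : ∀ j, ((ContinuousLinearMap.proj (R := ℂ) (φ := fun _ : Fin (r + 1) => ℂ) j).comp
            (fderiv ℂ (a s₀) z₁)) v = θ * a s₀ z₁ j := by
        intro j
        change fderiv ℂ (a s₀) z₁ v j = _
        rw [hθ]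
        rfl
      funext j
      have h8 : HasFDerivAt (fun z => a s₀ z j.succ * (a s₀ z 0)⁻¹) _ z₁ :=
        (hder j.succ).mul ((hasDerivAt_inv haz₁).comp_hasFDerivAt z₁ (hder 0))
      have h9 : fderiv ℂ R z₁ v j = fderiv ℂ (fun z => R z j) z₁ v := by
        have h10 : HasFDerivAt R (fderiv ℂ R z₁) z₁ :=
          (hRd.differentiableAt (hB₁o.mem_nhds (hVsub hz₁V).1)).hasFDerivAt
        rw [((hasFDerivAt_pi'.1 h10) j).fderiv]
        rfl
      change fderiv ℂ R z₁ v j = 0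
      rw [h9]
      have h11 : (fun z => R z j) = fun z => a s₀ z j.succ * (a s₀ z 0)⁻¹ := by
        funext z
        simp only [R, div_eq_mul_inv]
      have h12 : fderiv ℂ (fun z => R z j) z₁ v =
          a s₀ z₁ j.succ * (-(a s₀ z₁ 0 ^ 2)⁻¹ * (θ * a s₀ z₁ 0)) +
          (a s₀ z₁ 0)⁻¹ * (θ * a s₀ z₁ j.succ) := by
        rw [h11, h8.fderiv, ← hval 0, ← hval j.succ]
        rfl
      rw [h12]
      field_simp
      ring)
  -- the forms
  set L : ℕ := 1 + ∑ j, ((i j).2 + 1) with hL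
  have hLj : ∀ j, (i j).2 + 1 ≤ L := by
    intro j
    have h7 : (i j).2 + 1 ≤ ∑ j, ((i j).2 + 1) :=
      Finset.single_le_sum (f := fun j => (i j).2 + 1) (fun _ _ => Nat.zero_le _)
        (Finset.mem_univ j)
    omega
  let τ : (Fin (r + 1) → ℂ) → ℕ → M → ℂ := fun w k' x =>
    trace n p m k' (fun y => lin w (fun i => η i y)) x
  have hτf : ∀ w l, 1 ≤ l → IsPluriForm n M (m * (k * l)) (τ w (k * l)) := by
    intro w l hl
    refine isPluriForm_trace' hcov hloc (isPluriForm_lin hη w) hq (locBd_lin hq hbd w) ?_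
    exact hqk.trans (by exact_mod_cast Nat.le_mul_of_pos_right k hl)
  have hτ0 : IsPluriForm n M (m * k) (τ u₀ k) := by
    have := hτf u₀ 1 le_rfl
    rwa [mul_one] at this
  have hτP : ∀ w k', ∀ z ∈ B, τ w k' (χ.symm z) * jac n χ.symm z ^ (m * k') = P w k' z := by
    intro w k' z hz
    have h7 := trace_mul_jac (η := fun y => lin w (fun i => η i y)) (m := m) hloc S k'
      (hsymmB.mdifferentiableAt (hBo.mem_nhds hz)) (hb z hz).2.1
    refine h7.trans ?_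
    simp only [P, a]
    refine tsum_congr fun s => ?_
    congr 1
    simp only [lin, Finset.sum_mul]
    exact Finset.sum_congr rfl fun i _ => by ring
  set x₁ : M := χ.symm z₁ with hx₁
  have hz₁t : z₁ ∈ χ.target := (hb z₁ hz₁B).1
  have hx₁s : x₁ ∈ χ.source := χ.map_target hz₁t
  have hχx₁ : χ x₁ = z₁ := χ.right_inv hz₁t
  let c : Fin (r + 1) → M → ℂ := Fin.cons (fun x => τ u₀ k x ^ L)
    (fun j x => τ (i j).1 (k * ((i j).2 + 1)) x * τ u₀ k x ^ (L - ((i j).2 + 1)))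
  refine ⟨m * k * L, Nat.mul_pos (Nat.mul_pos hm hk1) (by omega), c, ?_, x₁, ?_, ?_⟩
  · intro j
    refine Fin.cases ?_ (fun j => ?_) j
    · exact hτ0.pow L
    · have h7 := isPluriForm_mul (hτf (i j).1 ((i j).2 + 1) (by omega))
        (hτ0.pow (L - ((i j).2 + 1)))
      have h8 : m * (k * ((i j).2 + 1)) + m * k * (L - ((i j).2 + 1)) = m * k * L := by
        rw [← mul_assoc, ← mul_add]
        congr 1
        have := hLj j
        omega
      rw [h8] at h7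
      exact h7
  · change τ u₀ k x₁ ^ L ≠ 0
    apply pow_ne_zero
    intro h0
    have h7 := hτP u₀ k z₁ hz₁B
    rw [← hx₁, h0, zero_mul] at h7
    exact hPz₁ h7.symm
  · -- the ratios near `x₁`
    let Q' : (Fin n → ℂ) → (Fin r → ℂ) := fun z j => Q (i j).1 ((i j).2 + 1) z
    have hQ'd : HasFDerivAt Q' (fderiv ℂ Q' z₁) z₁ := by
      apply DifferentiableAt.hasFDerivAt
      exact differentiableAt_pi.2 fun j => hQd _ _ (by omega)
    have hQ's : Function.Surjective (fderiv ℂ Q' z₁) := by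
      intro t
      obtain ⟨v, hv⟩ := hi t
      refine ⟨v, ?_⟩
      funext j
      have h7 := congrFun hv j
      rw [← h7]
      have h8 := ((hasFDerivAt_pi'.1 hQ'd) j).fderiv
      change fderiv ℂ Q' z₁ v j = fderiv ℂ (fun z => Q' z j) z₁ v
      rw [h8]
      rfl
    have hev : (fun y (j : Fin r) => c j.succ y / c 0 y) =ᶠ[𝓝 x₁] Q' ∘ χ := by
      have hχc : ContinuousAt χ x₁ := χ.continuousAt hx₁s
      have e1 : ∀ᶠ y in 𝓝 x₁, χ y ∈ V := hχc.preimage_mem_nhds (by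
        rw [hχx₁]; exact hVo.mem_nhds hz₁V)
      filter_upwards [e1, χ.open_source.mem_nhds hx₁s] with y hyV hys
      funext j
      have hyB : χ y ∈ B := hVB hyV
      have h7 := hτP (i j).1 (k * ((i j).2 + 1)) (χ y) hyB
      have h8 := hτP u₀ k (χ y) hyB
      have h9 : P u₀ k (χ y) ≠ 0 := (hVsub hyV).2.2
      have h10 : jac n χ.symm (χ y) ≠ 0 := jac_chart_symm_ne_zero x₀ (hb _ hyB).1
      rw [χ.left_inv hys] at h7 h8
      change τ (i j).1 (k * ((i j).2 + 1)) y * τ u₀ k y ^ (L - ((i j).2 + 1)) / τ u₀ k y ^ L =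
        P (i j).1 (k * ((i j).2 + 1)) (χ y) / P u₀ k (χ y) ^ ((i j).2 + 1)
      have h11 : τ u₀ k y ≠ 0 := by
        intro h0
        rw [h0, zero_mul] at h8
        exact h9 h8.symm
      have h12 : τ u₀ k y ^ L = τ u₀ k y ^ (L - ((i j).2 + 1)) * τ u₀ k y ^ ((i j).2 + 1) := by
        rw [← pow_add]
        congr 1
        have := hLj j
        omega
      rw [h12, mul_comm (τ (i j).1 _ y), mul_div_mul_left _ _ (pow_ne_zero _ h11), ← h7, ← h8,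
        mul_pow, ← pow_mul, mul_assoc m k, mul_div_mul_right _ _ (pow_ne_zero _ h10)]
    have hχ₁ : MDifferentiableAt 𝓘(ℂ, Fin n → ℂ) 𝓘(ℂ, Fin n → ℂ) χ x₁ :=
      (mdiff_chart x₀).mdifferentiableAt (χ.open_source.mem_nhds hx₁s)
    have hsymm₁ : MDifferentiableAt 𝓘(ℂ, Fin n → ℂ) 𝓘(ℂ, Fin n → ℂ) χ.symm z₁ :=
      (mdiff_chart_symm x₀).mdifferentiableAt (χ.open_target.mem_nhds hz₁t)
    have hQ'm : MDifferentiableAt 𝓘(ℂ, Fin n → ℂ) 𝓘(ℂ, Fin r → ℂ) Q' (χ x₁) := by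
      rw [hχx₁]
      exact hQ'd.differentiableAt.mdifferentiableAt
    have hχs : Function.Surjective (mfderiv 𝓘(ℂ, Fin n → ℂ) 𝓘(ℂ, Fin n → ℂ) χ x₁) := by
      have h7 : χ ∘ χ.symm =ᶠ[𝓝 z₁] id := by
        filter_upwards [χ.open_target.mem_nhds hz₁t] with w hw
        exact χ.right_inv hw
      have h8 : (mfderiv 𝓘(ℂ, Fin n → ℂ) 𝓘(ℂ, Fin n → ℂ) χ x₁).comp
          (mfderiv 𝓘(ℂ, Fin n → ℂ) 𝓘(ℂ, Fin n → ℂ) χ.symm z₁) =
          mfderiv 𝓘(ℂ, Fin n → ℂ) 𝓘(ℂ, Fin n → ℂ) id z₁ :=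
        (mfderiv_comp z₁ hχ₁ hsymm₁).symm.trans h7.mfderiv_eq
      intro t
      refine ⟨mfderiv 𝓘(ℂ, Fin n → ℂ) 𝓘(ℂ, Fin n → ℂ) χ.symm z₁ t, ?_⟩
      have h9 := DFunLike.congr_fun h8 t
      rw [mfderiv_id] at h9
      exact h9
    change Function.Surjective (mfderiv 𝓘(ℂ, Fin n → ℂ) 𝓘(ℂ, Fin r → ℂ)
      (fun y (j : Fin r) => c j.succ y / c 0 y) x₁)
    rw [hev.mfderiv_eq, mfderiv_comp x₁ hQ'm hχ₁, mfderiv_eq_fderiv]
    have h7 : Function.Surjective (fderiv ℂ Q' (χ x₁)) := by rw [hχx₁]; exact hQ's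
    exact h7.comp hχs

end Pool.Agent.Helper96.Kod
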